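import Mathlib
import Pool.Agent.Y682.YQ.BsdB
import Pool.Agent.Y687.MQ.Fin
import Pool.Agent.V11161.BH.SplK

/-!
# Twists of `X_0(14)` by products of split primes: rank zero and `Ш[2] = 0` is a multiplicative
# condition along clusters of primes

`E_D : y² = x³ + 5805 D² x - 285714 D³` is the quadratic twist by `D` of the modular curve `X_0(14)`,
without complex multiplication. Write `RZ D` if `E_D(ℚ)` is finite and `Ш(E_D)[2] = 0`. For products of
primes which split completely in `ℚ(i, √2, √-7)` the condition `RZ` is the nonvanishing of the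
determinant of a matrix with entries in `𝔽₂`, of the size of the number of the primes, in which all the
quadratic symbols between the primes occur. The theorem says that it is multiplicative along the
clusters of primes with difference vectors in Bohr sets.

Let `M` be ANY member of the class `Adm` (squarefree, `1` modulo `4`, a square modulo `7`, prime to `3`,
all prime divisors split completely in `ℚ(i, √2, √-7)` or inert in `ℚ(√2)` and in `ℚ(√-7)`). For all `k`
and `η > 0` there are `d`, `C`, `X₀` and `ρ, b > 0`, which depend only on `k` and `η`, such that for all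
`M` and every `X ≥ X₀` there are `W > 0` and frequencies `θ_1, …, θ_d` with the following property. Let
`B` be the Bohr set of all integers `|h| ≤ X` with `|exp (2 π i h θ_j) - 1| ≤ ρ` for all `j`; it has at
least `b X` elements. For at least `(1 - η) |B| ^ k` of the vectors `(h_1, …, h_k)` in `B ^ k` (the
entries being distinct and not zero) and for arbitrarily large `N`, the same for all these vectors, there
are at least `N / (log N) ^ C` numbers `p ≤ N` such that `p_0 = p` and all the `p_i = p + W h_i` are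
primes, `1` modulo `168 |M|`, and

1. for all `J ⊆ {0, …, k}`: `RZ (M ∏_{i ∈ J} p_i)` if and only if `RZ M` and `RZ p_i` for all `i ∈ J`;
2. `RZ p_i` if and only if the number of the points of `X_0(14)` modulo `p_i` is not divisible by `8`;
3. if `RZ M` and these numbers of points are not divisible by `8`, then the conjecture of Birch and
   Swinnerton-Dyer (analytic continuation, order of vanishing = rank) holds for `E_M` over
   `K = ℚ(√p_0, …, √p_k)`, of degree `2 ^ (k + 1)`, the group `E_M(K)` being finite and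
   `L(E_M / K, 1) ≠ 0`.

So `k + 1` conditions modulo the single primes decide about all the `2 ^ (k + 1)` twists. The criterion
with the matrix, the nonvanishing of the `L`-values and the comparison with the field are in the
starting library (`Pool.Agent.Y682.YQ.zer_iff`, `Pool.Agent.Y687.MQ`). New here: the control of the
quadratic symbols of the clusters, the matrix of the products (`Pool.Agent.V11161.BH.det_mul_P`), and
the configurations of the primes (`Pool.Agent.V11161.BH.bohrAPU`, uniform in the modulus).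
-/

set_option autoImplicit false

open Filter NumberField IsDedekindDomain

namespace Pool.Agent.Results.MP_32c55d_nt.MultiplicativeClusters

open Pool.Agent.TH841.SH.D (Sha)

/-! ### The class of the twists -/

/-- primes which split completely in `ℚ(i, √2, √-7)` -/
def Split (p : ℕ) : Prop := p.Prime ∧ p % 8 = 1 ∧ (p % 7 = 1 ∨ p % 7 = 2 ∨ p % 7 = 4)

/-- primes inert in `ℚ(√2)` and in `ℚ(√-7)` -/
def Inert (q : ℕ) : Prop :=
  q.Prime ∧ (q % 8 = 3 ∨ q % 8 = 5) ∧ (q % 7 = 3 ∨ q % 7 = 5 ∨ q % 7 = 6)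

/-- the class -/
def Adm (M : ℤ) : Prop := Squarefree M ∧ M % 4 = 1 ∧ (M % 7 = 1 ∨ M % 7 = 2 ∨ M % 7 = 4) ∧
  ∀ p : ℕ, p.Prime → (p : ℤ) ∣ M → p ≠ 3 ∧ (Split p ∨ Inert p)

/-- the global minimal equation of `E_M` over `ℚ`, for `M = 1` modulo `4` -/
def minimal (M : ℤ) : WeierstrassCurve ℚ :=
  (⟨1, (M - 1) / 4, 1, (9 * M ^ 2 - 1) / 2, -((23 * M ^ 3 + 1) / 4)⟩ : WeierstrassCurve ℤ).map
    (Int.castRingHom ℚ)

/-- the group `E_M(ℚ)` is finite and `Ш(E_M)` has no element of order two -/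
def RankZeroShaTwo (M : ℤ) : Prop :=
  Finite (minimal M).toAffine.Point ∧ ∀ x : Sha (minimal M), 2 • x = 0 → x = 0

/-- the number of the points of `X_0(14) : y² = x³ + 5805 x - 285714` modulo `p` -/
noncomputable def points (p : ℕ) : ℕ :=
  Nat.card {z : ZMod p × ZMod p // z.2 ^ 2 = z.1 ^ 3 + 5805 * z.1 - 285714} + 1

/-! ### The conjecture for `E_M` over `K` -/

/-- the curve `E_M : y² = x³ + 5805 M² x - 285714 M³` over the field `K` -/
def E (K : Type) [Field K] (M : ℤ) : WeierstrassCurve K :=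
  { a₁ := 0, a₂ := 0, a₃ := 0, a₄ := ((5805 * M ^ 2 : ℤ) : K), a₆ := ((-285714 * M ^ 3 : ℤ) : K) }

/-- the number `q_v` of elements of the residue field of a finite place `v` of `K` -/
noncomputable def qv (K : Type) [Field K] (v : HeightOneSpectrum (𝓞 K)) : ℕ :=
  Nat.card (𝓞 K ⧸ v.asIdeal)

/-- `a_v = q_v + 1 - #E_M(k_v)`, that is `q_v` minus the number of affine points -/
noncomputable def av (K : Type) [Field K] (M : ℤ) (v : HeightOneSpectrum (𝓞 K)) : ℤ :=
  (qv K v : ℤ) - Nat.card {z : (𝓞 K ⧸ v.asIdeal) × (𝓞 K ⧸ v.asIdeal) //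
    z.2 ^ 2 = z.1 ^ 3 + ((5805 * M ^ 2 : ℤ) : 𝓞 K ⧸ v.asIdeal) * z.1 +
      ((-285714 * M ^ 3 : ℤ) : 𝓞 K ⧸ v.asIdeal)}

open Classical in
/-- `F` is entire and is, for `Re s > 3/2`, the `L`-function of `E_M` over `K` without the Euler factors
at the places that divide `2 (4 (5805 M²)³ + 27 (285714 M³)²) D` -/
def IsL (K : Type) [Field K] (D M : ℤ) (F : ℂ → ℂ) : Prop :=
  Differentiable ℂ F ∧ ∀ s : ℂ, (3 : ℝ) / 2 < s.re →
    HasProd (fun v : HeightOneSpectrum (𝓞 K) =>
      if ((2 * (4 * (5805 * M ^ 2) ^ 3 + 27 * (-285714 * M ^ 3) ^ 2) * D : ℤ) : 𝓞 K) ∈ v.asIdeal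
      then 1 else (1 - (av K M v : ℂ) * (qv K v : ℂ) ^ (-s) + (qv K v : ℂ) ^ (1 - 2 * s))⁻¹) (F s)

open Classical in
/-- the rank of the group of the points over `K` -/
noncomputable def rank (K : Type) [Field K] (M : ℤ) : ℕ :=
  Module.finrank ℤ (E K M).toAffine.Point

/-- The conjecture for `E_M` over `K` with order of vanishing zero: `E_M(K)` is finite, the `L`-function
(without finitely many Euler factors, which do not change the order at `s = 1`) is entire, it does not
vanish at `s = 1`, and its order of vanishing is the rank. -/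
def ConjZero (K : Type) [Field K] (D M : ℤ) : Prop :=
  Finite (E K M).toAffine.Point ∧ (∃ F : ℂ → ℂ, IsL K D M F) ∧
    ∀ F : ℂ → ℂ, IsL K D M F → F 1 ≠ 0 ∧ analyticOrderAt F 1 = rank K M

/-! ### The clusters -/

/-- `K = ℚ(√d_1, …, √d_n)` -/
def IsMultiquadratic {n : ℕ} (d : Fin n → ℤ) (K : Type) [Field K] [NumberField K] : Prop :=
  ∃ x : Fin n → K, (∀ i, x i ^ 2 = (d i : K)) ∧ IntermediateField.adjoin ℚ (Set.range x) = ⊤

/-- the numbers `p, p + W h_1, …, p + W h_k` -/
def members {k : ℕ} (W : ℕ) (h : Fin k → ℤ) (p : ℕ) : Fin (k + 1) → ℤ :=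
  Fin.cons (p : ℤ) fun i => (p : ℤ) + W * h i

/-- the `p ≤ N` for which the `p_i` (that is, `p` and the `p + W h_i`) are primes, `1` modulo `168 |M|`,
and the statements 1, 2, 3 hold -/
def goodPrimes {k : ℕ} (M : ℤ) (W : ℕ) (h : Fin k → ℤ) (N : ℕ) : Set ℕ :=
  {p : ℕ | p ≤ N ∧
    (∀ i, ∃ q : ℕ, q.Prime ∧ q % (168 * M.natAbs) = 1 ∧ (q : ℤ) = members W h p i) ∧
    (∀ J : Finset (Fin (k + 1)), RankZeroShaTwo (M * ∏ i ∈ J, members W h p i) ↔
      RankZeroShaTwo M ∧ ∀ i ∈ J, RankZeroShaTwo (members W h p i)) ∧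
    (∀ i, RankZeroShaTwo (members W h p i) ↔ ¬ 8 ∣ points (members W h p i).natAbs) ∧
    (RankZeroShaTwo M → (∀ i, ¬ 8 ∣ points (members W h p i).natAbs) →
      ∀ (K : Type) [Field K] [NumberField K], IsMultiquadratic (members W h p) K →
        Module.finrank ℚ K = 2 ^ (k + 1) ∧ ConjZero K (∏ i, members W h p i) M)}

/-- the Bohr set of the frequencies `θ_j`, of radius `ρ` and width `X` -/
def bohrSet {d : ℕ} (θ : Fin d → ℝ) (ρ : ℝ) (X : ℕ) : Set ℤ :=
  {h : ℤ | |h| ≤ X ∧ ∀ j, ‖Complex.exp (2 * Real.pi * Complex.I * (h * θ j)) - 1‖ ≤ ρ}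

/-! ### Proofs -/

open Pool.Agent.V11161.BH

theorem isL_unique {K : Type} [Field K] {D M : ℤ} {F G : ℂ → ℂ} (hF : IsL K D M F)
    (hG : IsL K D M G) : F = G := by
  have hF' : AnalyticOnNhd ℂ F Set.univ := fun z _ => hF.1.analyticAt z
  have hG' : AnalyticOnNhd ℂ G Set.univ := fun z _ => hG.1.analyticAt z
  refine hF'.eq_of_eventuallyEq hG' (z₀ := 2) ?_
  have hmem : {s : ℂ | (3 : ℝ) / 2 < s.re} ∈ nhds (2 : ℂ) :=
    (isOpen_lt continuous_const Complex.continuous_re).mem_nhds (by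
      show (3 : ℝ) / 2 < (2 : ℂ).re
      norm_num)
  filter_upwards [hmem] with s hs
  exact (hF.2 s hs).unique (hG.2 s hs)

theorem det_iff {M : ℤ} (hM : Adm M) : RankZeroShaTwo M ↔ (Pool.Agent.Y687.MQ.matD M).det ≠ 0 := by
  rw [← Pool.Agent.Y682.YQ.zer_iff (D := M) hM]
  unfold RankZeroShaTwo Pool.Agent.Y682.YQ.Zer
  refine and_congr Iff.rfl (forall_congr' fun x => ?_)
  rw [two_nsmul]
  rfl

theorem det_inst {n : Type} [Fintype n] (d₁ d₂ : DecidableEq n) (A : Matrix n n (ZMod 2)) :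
    @Matrix.det n d₁ _ (ZMod 2) _ A = @Matrix.det n d₂ _ (ZMod 2) _ A := by
  rw [Subsingleton.elim d₁ d₂]

open Classical in
/-- the part of the diagonal which depends on the prime only -/
noncomputable def gg (i : ℕ) : ZMod 2 := if 8 ∣ points i then 0 else 1

theorem gg_ne (i : ℕ) : gg i ≠ 0 ↔ ¬ 8 ∣ points i := by
  unfold gg
  by_cases h : 8 ∣ points i
  · rw [if_pos h]
    simp [h]
  · rw [if_neg h]
    simp [h]

theorem points_eq (i : ℕ) : Pool.Agent.Y687.NN 1 i = points i := by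
  unfold Pool.Agent.Y687.NN Pool.Agent.Y687.cnt points
  congr 1
  refine Nat.card_congr (Equiv.subtypeEquivRight fun z => ?_)
  have e : z.1 ^ 3 + ((5805 * ((1 : ℕ) : ℤ) ^ 2 : ℤ) : ZMod i) * z.1 +
      ((-285714 * ((1 : ℕ) : ℤ) ^ 3 : ℤ) : ZMod i) = z.1 ^ 3 + 5805 * z.1 - 285714 := by
    push_cast
    ring
  rw [e]

open Classical in
/-- the determinant in terms of the entries -/
theorem det_R (D : ℤ) : (Pool.Agent.Y687.MQ.matD D).det = (Matrix.of fun i j : spl D =>
    ent gg D i j).det := by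
  have e : Pool.Agent.Y687.MQ.matD D = (Matrix.of fun i j : spl D => ent gg D i j) := by
    ext i j
    unfold Pool.Agent.Y687.MQ.matD ent gg
    simp only [Matrix.of_apply, points_eq]
    by_cases hij : i = j
    · rw [if_pos hij, if_pos (congrArg Subtype.val hij)]
    · rw [if_neg hij, if_neg (fun h => hij (Subtype.ext h))]
  rw [e]
  exact det_inst _ _ _

theorem adm_one : Adm 1 := by
  refine ⟨squarefree_one, by norm_num, by norm_num, fun p hp hd => ?_⟩
  exfalso
  have h1 : (p : ℤ) = 1 := by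
    have h2 := Int.eq_one_of_dvd_one (by positivity) hd
    exact h2
  have h3 : p = 1 := by exact_mod_cast h1
  exact hp.one_lt.ne' h3

/-- the determinant for the product over a split cluster -/
theorem det_P {M : ℤ} {P : Finset ℕ} (h : SplitCluster M P) (hM : Adm M) :
    (Pool.Agent.Y687.MQ.matD (M * ∏ p ∈ P, (p : ℤ))).det =
      (Pool.Agent.Y687.MQ.matD M).det * ∏ p ∈ P, gg p := by
  classical
  rw [det_R, det_R, det_mul_P gg h hM.1.ne_zero hM.2.1]

theorem rz_P {M : ℤ} {P : Finset ℕ} (h : SplitCluster M P) (hM : Adm M) (h3 : ∀ p ∈ P, p ≠ 3) :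
    Adm (M * ∏ p ∈ P, (p : ℤ)) ∧
      (RankZeroShaTwo (M * ∏ p ∈ P, (p : ℤ)) ↔ RankZeroShaTwo M ∧ ∀ p ∈ P, ¬ 8 ∣ points p) := by
  have hA : Adm (M * ∏ p ∈ P, (p : ℤ)) := adm_mul_P h hM h3
  refine ⟨hA, ?_⟩
  rw [det_iff hA, det_iff hM, det_P h hM, mul_ne_zero_iff, Finset.prod_ne_zero_iff]
  exact and_congr Iff.rfl (forall₂_congr fun p _ => gg_ne p)

theorem rz_one : RankZeroShaTwo 1 := by
  rw [det_iff adm_one, det_R]
  have : IsEmpty (spl 1) := by
    refine ⟨fun i => ?_⟩
    have h := i.2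
    unfold spl at h
    rw [Finset.mem_filter] at h
    simp at h
  rw [Matrix.det_isEmpty]
  exact one_ne_zero

theorem rz_prime {p : ℕ} (h : SplitCluster 1 {p}) (h3 : p ≠ 3) :
    RankZeroShaTwo p ↔ ¬ 8 ∣ points p := by
  have h1 := (rz_P h adm_one (by
    intro q hq
    rw [Finset.mem_singleton.1 hq]
    exact h3)).2
  rw [Finset.prod_singleton, one_mul] at h1
  rw [h1]
  constructor
  · exact fun h => h.2 p (Finset.mem_singleton_self p)
  · intro h
    refine ⟨rz_one, fun q hq => ?_⟩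
    rw [Finset.mem_singleton.1 hq]
    exact h

theorem classPrimes_sub {k X z Q : ℕ} {M : ℤ} (hM : Adm M) (hQM : 21 * M.natAbs ∣ Q)
    (hQs : ∀ q : ℕ, q.Prime → q ≠ 2 → q ≤ 2 * X + z → q ∣ Q)
    {h : Fin k → ℤ} (hbd : ∀ i, |h i| ≤ X) (hh0 : ∀ i, h i ≠ 0) (hinj : Function.Injective h)
    (hQ0 : 0 < Q) (N : ℕ) :
    classPrimes (8 * Q) 1 (8 * Q * z.factorial) h N ⊆ goodPrimes M (8 * Q * z.factorial) h N := by
  classical
  intro p hp
  have hMn : 0 < M.natAbs := Int.natAbs_pos.2 hM.1.ne_zero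
  obtain ⟨r, hrinj, hre, hr3, hrS⟩ := cluster_split hM.2.1 ((Dvd.intro _ (by ring :
      7 * (3 * M.natAbs) = 21 * M.natAbs)).trans hQM) ((Dvd.intro _ (by ring :
      3 * (7 * M.natAbs) = 21 * M.natAbs)).trans hQM) hQs (fun l hl _ hlM =>
      ((Int.natCast_dvd.1 hlM).mul_left 21).trans hQM) hbd hh0 hinj hQ0 hp
  have hmem : ∀ i, members (8 * Q * z.factorial) h p i = (r i : ℤ) := hre
  have hrP : ∀ i, (r i).Prime := fun i =>
    (hrS {i}).pr (r i) (Finset.mem_image_of_mem r (Finset.mem_singleton_self i))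
  have hcong : ∀ i, r i % (8 * Q) = 1 % (8 * Q) := by
    intro i
    refine Fin.cases ?_ (fun j => ?_) i
    · have e : r 0 = p := by
        have := hmem 0
        have h0 : members (8 * Q * z.factorial) h p 0 = (p : ℤ) := rfl
        rw [h0] at this
        exact_mod_cast this.symm
      rw [e]
      exact hp.2.2.1
    · obtain ⟨q, hq1, hq2, hq3⟩ := hp.2.2.2 j
      have e : r j.succ = q := by
        have := hmem j.succ
        have h0 : members (8 * Q * z.factorial) h p j.succ =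
          (p : ℤ) + (8 * Q * z.factorial : ℕ) * h j := rfl
        rw [h0, ← hq3] at this
        exact_mod_cast this.symm
      rw [e]
      exact hq2
  have hprod : ∀ J : Finset (Fin (k + 1)), ∏ i ∈ J, members (8 * Q * z.factorial) h p i =
      ∏ q ∈ J.image r, (q : ℤ) := by
    intro J
    rw [Finset.prod_image fun a _ b _ h => hrinj h]
    exact Finset.prod_congr rfl fun i _ => hmem i
  have h3 : ∀ (J : Finset (Fin (k + 1))), ∀ q ∈ J.image r, q ≠ 3 := by
    intro J q hq
    obtain ⟨i, -, rfl⟩ := Finset.mem_image.1 hq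
    exact hr3 i
  have hone : ∀ i, SplitCluster 1 {r i} := by
    intro i
    have h1 := hrS {i}
    rw [Finset.image_singleton] at h1
    refine ⟨h1.pr, h1.h8, h1.h7, fun q hq l hl hd => ?_, h1.hP⟩
    exfalso
    have h2 := Int.eq_one_of_dvd_one (by positivity) hd
    have h4 : l = 1 := by exact_mod_cast h2
    exact hl.one_lt.ne' h4
  have hsingle : ∀ i, RankZeroShaTwo (members (8 * Q * z.factorial) h p i) ↔
      ¬ 8 ∣ points (members (8 * Q * z.factorial) h p i).natAbs := by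
    intro i
    rw [hmem i, Int.natAbs_natCast]
    exact rz_prime (hone i) (hr3 i)
  have hJ : ∀ J : Finset (Fin (k + 1)),
      Adm (M * ∏ i ∈ J, members (8 * Q * z.factorial) h p i) ∧
      (RankZeroShaTwo (M * ∏ i ∈ J, members (8 * Q * z.factorial) h p i) ↔
        RankZeroShaTwo M ∧ ∀ i ∈ J, ¬ 8 ∣ points (members (8 * Q * z.factorial) h p i).natAbs) := by
    intro J
    rw [hprod J]
    obtain ⟨h1, h2⟩ := rz_P (hrS J) hM (h3 J)
    refine ⟨h1, h2.trans (and_congr Iff.rfl ?_)⟩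
    constructor
    · intro hall i hi
      rw [hmem i, Int.natAbs_natCast]
      exact hall (r i) (Finset.mem_image_of_mem r hi)
    · intro hall q hq
      obtain ⟨i, hi, rfl⟩ := Finset.mem_image.1 hq
      have := hall i hi
      rwa [hmem i, Int.natAbs_natCast] at this
  refine ⟨hp.1, fun i => ⟨r i, hrP i, ?_, (hmem i).symm⟩, fun J => ?_, hsingle,
    fun hRZ h8 K _ _ hK => ?_⟩
  · have e1 : r i ≡ 1 [MOD 168 * M.natAbs] := by
      refine Nat.ModEq.of_dvd ?_ (hcong i)
      have e2 : 168 * M.natAbs = 8 * (21 * M.natAbs) := by ring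
      rw [e2]
      exact Nat.mul_dvd_mul_left 8 hQM
    rw [Nat.ModEq, Nat.mod_eq_of_lt (by omega : 1 < 168 * M.natAbs)] at e1
    exact e1
  · rw [(hJ J).2]
    exact and_congr Iff.rfl (forall₂_congr fun i _ => (hsingle i).symm)
  · obtain ⟨x, hx, hadj⟩ := hK
    have hWB : ∀ T : Finset (Fin (k + 1)), Pool.Agent.Y687.WB (M * ∏ i ∈ T, (r i : ℤ)) := by
      intro T
      have e : ∏ i ∈ T, (r i : ℤ) = ∏ i ∈ T, members (8 * Q * z.factorial) h p i :=
        Finset.prod_congr rfl fun i _ => (hmem i).symm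
      rw [e]
      exact Pool.Agent.Y687.MQ.WB_D (hJ T).1 ((det_iff (hJ T).1).1
        ((hJ T).2.2 ⟨hRZ, fun i _ => h8 i⟩))
    obtain ⟨hdeg, ⟨F, hF, hF1⟩, hfin⟩ := primes_field r hrinj hrP hM.1.ne_zero hWB K x
      (fun i => by rw [hx i, hmem i]) hadj
    have hD : ∏ i, members (8 * Q * z.factorial) h p i = ∏ i, (r i : ℤ) :=
      Finset.prod_congr rfl fun i _ => hmem i
    rw [hD]
    have hfin' : Finite (E K M).toAffine.Point := hfin
    have hF' : IsL K (∏ i, (r i : ℤ)) M F := hF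
    have hrk : rank K M = 0 := by
      unfold rank
      rw [Module.finrank_eq_zero_iff_isTorsion]
      intro y
      obtain ⟨l, hl, hy⟩ := isOfFinAddOrder_iff_nsmul_eq_zero.1 (isOfFinAddOrder_of_finite y)
      refine ⟨⟨(l : ℤ), mem_nonZeroDivisors_of_ne_zero (by exact_mod_cast hl.ne')⟩, ?_⟩
      show (l : ℤ) • y = 0
      rw [natCast_zsmul]
      exact hy
    refine ⟨hdeg, hfin', ⟨F, hF'⟩, fun G hG => ?_⟩
    have hG1 : G 1 ≠ 0 := by
      rw [isL_unique hG hF']
      exact hF1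
    refine ⟨hG1, ?_⟩
    rw [hrk]
    exact analyticOrderAt_eq_zero.2 (Or.inr hG1)

/-- **Main theorem.** Rank zero with `Ш[2] = 0` is multiplicative on the twists of `X_0(14)` by the
products over almost all configurations of split primes in a Bohr set, for every base twist `M`. -/
theorem result (k : ℕ) (η : ℝ) (hη : 0 < η) :
    ∃ (d C X₀ : ℕ) (ρ b : ℝ), 0 < ρ ∧ 0 < b ∧ ∀ M : ℤ, Adm M → ∀ X : ℕ, X₀ ≤ X →
      ∃ (W : ℕ) (θ : Fin d → ℝ) (H : Finset (Fin k → ℤ)), 0 < W ∧
        b * X ≤ ((bohrSet θ ρ X).ncard : ℝ) ∧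
        (∀ h ∈ H, (∀ i, h i ∈ bohrSet θ ρ X ∧ h i ≠ 0) ∧ Function.Injective h) ∧
        (1 - η) * ((bohrSet θ ρ X).ncard : ℝ) ^ k ≤ (H.card : ℝ) ∧
        ∃ᶠ N : ℕ in atTop, ∀ h ∈ H, (N : ℝ) / (Real.log N) ^ C ≤
          ((goodPrimes M W h N).ncard : ℝ) := by
  obtain ⟨z, d, C, X₀, ρ, b, hρ, hb, hS⟩ := bohrAPU k η hη
  refine ⟨d, C, X₀, ρ, b, hρ, hb, fun M hM X hX => ?_⟩
  have hM0 : 0 < M.natAbs := Int.natAbs_pos.2 hM.1.ne_zero
  have hMo : ¬ 2 ∣ 21 * M.natAbs := by
    have := hM.2.1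
    omega
  obtain ⟨Q, hQ0, -, hQs, -, hQt⟩ := exists_odd_modulus (2 * X + z) (21 * M.natAbs) (by omega)
  obtain ⟨θ, H, h1, h2, h3, h4⟩ := hS (8 * Q) (by omega) 1 (Nat.coprime_one_left _) X hX
  refine ⟨8 * Q * z.factorial, θ, H, Nat.mul_pos (by omega) z.factorial_pos, h1, h2, h3,
    h4.mono fun N hN h hh => (hN h hh).trans ?_⟩
  rw [Nat.cast_le]
  refine Set.ncard_le_ncard (classPrimes_sub hM (hQt _ hMo dvd_rfl) hQs
    (fun i => ((h2 h hh).1 i).1.1) (fun i => ((h2 h hh).1 i).2) (h2 h hh).2 hQ0 N)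
    ((Set.finite_Iic N).subset fun p hp => hp.1)

end Pool.Agent.Results.MP_32c55d_nt.MultiplicativeClusters
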