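import Pool.Agent.V11333.Karamata
import Pool.Agent.V11333.RieszOne
import Pool.Agent.V11288.BS.Cur
import Pool.Agent.TH270.MS.EQ3
import Pool.Agent.TH270.MS.GrowthF
import Pool.Agent.TH941.Newform
import Pool.Agent.W263.BSD.Lead8

/-!
# The rank from the ratios `P(x^λ) / P(x)` of the products of Birch and Swinnerton-Dyer

Let `C : y² = x³ + a x + b` be an elliptic curve over `ℚ`, `a, b ∈ ℤ`, `N_p` the number of affine points
modulo the good primes `p ∤ 2Δ`, `P(x) = ∏_{p ≤ x, p ∤ 2Δ} (N_p + 1)/p` the product from which Birch and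
Swinnerton-Dyer found their conjecture `P(x) ∼ C₀ (log x)^rank`, `F` the entire continuation of the
incomplete `L`-series and `m = ord_{s=1} F`. Goldfeld (1982) proved that this asymptotic formula implies
`m = rank`, the absence of zeros of `F` with `Re s > 1`, and gives `C₀`.

1. ONE ratio is enough for this: if `P(x^λ) / P(x) → l > 0` for one `λ > 1`, then `F` has no zeros with
   `Re s > 1` and `l = λ^m`. So `P(x²)/P(x) → 2^rank` implies `ord_{s=1} F = rank` and the Riemann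
   hypothesis for the curve. More precisely, for one `λ > 1` and real `ρ`,
   `limsup P(x^λ)/P(x) ≤ λ^ρ` implies that there are no zeros with `Re s > 1` and that `m ≤ ρ`; if there are
   no REAL zeros `> 1`, then `liminf P(x^λ)/P(x) ≥ λ^ρ` implies that there are no zeros with `Re s > 1` and
   that `m ≥ ρ`.
2. The asymptotic formula `P(x) ∼ C₀ (log x)^ρ` (`ρ` real, `C₀ > 0` some constant) is equivalent to each of:
   * `P(x^λ)/P(x) → λ^ρ` for all `λ > 0`;
   * `P(x^λ)/P(x) → λ^ρ` for the `λ` in a set `S ⊂ (1, ∞)` which is not a null set or not meagre;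
   * `ρ = m` and `limsup P(x^λ)/P(x) ≤ λ^ρ` for the `λ` in such a set;
   * `ρ = m`, `F` has no real zeros `> 1`, and `liminf P(x^λ)/P(x) ≥ λ^ρ` for the `λ` in such a set.

   Nothing is assumed on the uniformity in `λ`, and the bound is from one side.

So, with `ρ = rank C(ℚ)`: the original conjecture is equivalent to the rank form `ord_{s=1} F = rank` together
with `limsup P(x^λ)/P(x) ≤ λ^rank` for the `λ` in any fixed set of positive measure.

Proof. (1) By iteration `log P(x) ≤ (ρ + ε) log log x + O(1)`; then the one-sided theorems of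
`Pool.Agent.V11333.RieszOne` and `Pool.Agent.W263.BSD`. (2) By (1) there are no zeros with `Re s > 1`. Then
`(log (√2 P*(x) / (C₀ (log x)^m)))² / x` is integrable by the theorem `curve_law` of the library
(`Pool.Agent.TH270.MS`), so `h(u) = log (P(e^u) / (C₀ u^m))` is small outside a set of FINITE measure. Given a
large `u` there is then a `λ` in a set of positive measure, for which the bound is uniform, such
that `h` is small at `u/λ`, and one such that `h` is small at `λ u`; so `h(u)` is small from both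
sides. In the case of category the uniform bound extends to an interval by continuity from the right.
-/

set_option autoImplicit false

namespace Pool.Agent.Results.MP_32c55d_nt.RatioCriterion

open Pool.Agent.W263.BSD Filter Topology Classical MeasureTheory Set
open CongruenceSubgroup UpperHalfPlane
open scoped MatrixGroups

/-- The original product `P(x) = ∏_{p ≤ x, p ∤ 2Δ} (N_p + 1)/p`. -/
noncomputable def P (a b : ℤ) (x : ℝ) : ℝ :=
  ∏ p ∈ (Finset.range (⌊x⌋₊ + 1)).filter (GoodPrime a b), (((pointCount a b p : ℝ) + 1) / p)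

/-- `limsup P(x^r) / P(x) ≤ r^ρ`. -/
def RatioLe (a b : ℤ) (r ρ : ℝ) : Prop :=
  ∀ ε : ℝ, 0 < ε → ∀ᶠ x : ℝ in atTop, P a b (x ^ r) / P a b x ≤ r ^ ρ + ε

/-- `liminf P(x^r) / P(x) ≥ r^ρ`. -/
def RatioGe (a b : ℤ) (r ρ : ℝ) : Prop :=
  ∀ ε : ℝ, 0 < ε → ∀ᶠ x : ℝ in atTop, r ^ ρ - ε ≤ P a b (x ^ r) / P a b x

/-- `P(x^r) / P(x) → l`. -/
def RatioLim (a b : ℤ) (r l : ℝ) : Prop :=
  Tendsto (fun x : ℝ => P a b (x ^ r) / P a b x) atTop (𝓝 l)

/-- `S` is a set of numbers `> 1` which is not a null set (its outer Lebesgue measure is positive) or not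
meagre. -/
def Large (S : Set ℝ) : Prop := (∀ r ∈ S, 1 < r) ∧ (volume S ≠ 0 ∨ ¬ IsMeagre S)

/-- `F` has no zeros with `Re s > 1`. -/
def NoZeros (F : ℂ → ℂ) : Prop := ∀ s : ℂ, 1 < s.re → F s ≠ 0

/-- `F` has no real zeros `> 1`. -/
def NoRealZeros (F : ℂ → ℂ) : Prop := ∀ σ : ℝ, 1 < σ → F σ ≠ 0

/-- The rank of the group of rational points of `y² = x³ + a x + b`. -/
noncomputable def rank (a b : ℤ) : ℕ :=
  Module.finrank ℤ
    (WeierstrassCurve.Affine.Point
      (WeierstrassCurve.toAffine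
        ({ a₁ := 0, a₂ := 0, a₃ := 0, a₄ := (a : ℚ), a₆ := (b : ℚ) } : WeierstrassCurve ℚ)))

/-- The `n`-th Fourier coefficient of `f`. -/
noncomputable def coef {N : ℕ} (f : CuspForm (Gamma0 N : Subgroup (GL (Fin 2) ℝ)) 2) (n : ℕ) : ℂ :=
  (qExpansion 1 f).coeff n

/-- `f ∈ S_2(Γ₀(N))` is the newform of the elliptic curve `E : y² = x³ + a x + b` of conductor `N`: the
Fourier coefficients `c(n)` of `f` are real with `c(1) = 1`, they satisfy the Hecke relations
`c(mn) = c(m) c(n)` for coprime `m`, `n` and `c(p^(j+2)) = c(p) c(p^(j+1)) - p c(p^j)` (without the last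
term if `p ∣ N`), `c(p) = a_p = p - N_p` (`N_p` affine points) for all primes `p ∤ 2Δ`, `|c(p)| ≤ 2 √p` for
all `p ∤ N` (Hasse) and `c(p) = 0, 1, -1` for `p ∣ N`. -/
structure IsNewformOf (a b : ℤ) (N : ℕ) (f : CuspForm (Gamma0 N : Subgroup (GL (Fin 2) ℝ)) 2) :
    Prop where
  one : coef f 1 = 1
  real : ∀ n, (coef f n).im = 0
  mul : ∀ m n : ℕ, Nat.Coprime m n → coef f (m * n) = coef f m * coef f n
  pow : ∀ p j : ℕ, p.Prime → coef f (p ^ (j + 2)) = coef f p * coef f (p ^ (j + 1)) -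
      (if p ∣ N then 0 else (p : ℂ) * coef f (p ^ j))
  points : ∀ p : ℕ, GoodPrime a b p → coef f p = (p : ℂ) - (pointCount a b p : ℂ)
  good : ∀ p : ℕ, p.Prime → ¬ p ∣ N → ‖coef f p‖ ≤ 2 * Real.sqrt p
  bad : ∀ p : ℕ, p.Prime → p ∣ N → coef f p = 0 ∨ coef f p = 1 ∨ coef f p = -1

theorem hecke {a b : ℤ} {N : ℕ} {f : CuspForm (Gamma0 N : Subgroup (GL (Fin 2) ℝ)) 2}
    (hf : IsNewformOf a b N f) : Pool.Agent.TH941.Hecke f where
  one := hf.one
  real := hf.real
  mul := hf.mul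
  pow := hf.pow
  good := hf.good
  bad := fun p hp h => by
    rcases hf.bad p hp h with h1 | h1 | h1
    · have h2 : ‖coef f p‖ ≤ 1 := by rw [h1]; simp
      exact h2
    · have h2 : ‖coef f p‖ ≤ 1 := by rw [h1]; simp
      exact h2
    · have h2 : ‖coef f p‖ ≤ 1 := by rw [h1]; simp
      exact h2

variable {a b : ℤ} {F : ℂ → ℂ}

theorem loglog : Tendsto (fun x : ℝ => Real.log (Real.log x)) atTop atTop :=
  Real.tendsto_log_atTop.comp Real.tendsto_log_atTop

/-- comparison of the coefficients of `log log x` -/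
theorem le_of_freq {ρ σ M : ℝ} (h : ∃ᶠ x : ℝ in atTop,
    ρ * Real.log (Real.log x) ≤ σ * Real.log (Real.log x) + M) : ρ ≤ σ := by
  by_contra hcon
  push Not at hcon
  refine h ?_
  filter_upwards [(loglog.const_mul_atTop (sub_pos.2 hcon)).eventually_gt_atTop M] with x hx
  rw [not_le]
  linarith

theorem P_pos (x : ℝ) : 0 < P a b x := bsdProduct_pos x

theorem log_P (x : ℝ) : Real.log (P a b x) = ∑ p ∈ (Finset.range (⌊x⌋₊ + 1)).filter (GoodPrime a b),
    Real.log (((pointCount a b p : ℝ) + 1) / p) := by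
  unfold P
  rw [Real.log_prod]
  intro p hp
  have hp0 : (p : ℝ) ≠ 0 := by exact_mod_cast (Finset.mem_filter.1 hp).2.1.ne_zero
  have : (0 : ℝ) < (pointCount a b p : ℝ) + 1 := by positivity
  exact div_ne_zero this.ne' hp0

theorem rm0 (x : ℝ) : rieszMean a b 0 x = Real.log (P a b x) := by
  rw [log_P]
  unfold rieszMean
  exact Finset.sum_congr rfl fun p _ => by rw [pow_zero, one_mul]

/-- `log P(e^u)` -/
noncomputable def L (a b : ℤ) (u : ℝ) : ℝ := Real.log (P a b (Real.exp u))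

theorem L_bdd (a b : ℤ) (U : ℝ) : ∃ M : ℝ, ∀ u ≤ U, |L a b u| ≤ M := by
  refine ⟨∑ p ∈ (Finset.range (⌊Real.exp U⌋₊ + 1)).filter (GoodPrime a b),
    |Real.log (((pointCount a b p : ℝ) + 1) / p)|, fun u hu => ?_⟩
  unfold L
  rw [log_P]
  refine (Finset.abs_sum_le_sum_abs _ _).trans
    (Finset.sum_le_sum_of_subset_of_nonneg ?_ fun _ _ _ => abs_nonneg _)
  refine Finset.filter_subset_filter _ (Finset.range_subset_range.2 ?_)
  have := Nat.floor_le_floor (Real.exp_le_exp.2 hu)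
  omega

theorem L_right (a b : ℤ) (u : ℝ) : ∀ᶠ v in 𝓝[>] u, L a b v = L a b u := by
  have h1 : Real.exp u < (⌊Real.exp u⌋₊ : ℝ) + 1 := Nat.lt_floor_add_one _
  have h2 : ∀ᶠ v in 𝓝 u, Real.exp v < (⌊Real.exp u⌋₊ : ℝ) + 1 :=
    (Real.continuous_exp.tendsto u).eventually (gt_mem_nhds h1)
  filter_upwards [nhdsWithin_le_nhds h2, self_mem_nhdsWithin] with v hv1 hv2
  have h3 : ⌊Real.exp v⌋₊ = ⌊Real.exp u⌋₊ := by
    refine le_antisymm ?_ (Nat.floor_le_floor (Real.exp_le_exp.2 (le_of_lt hv2)))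
    have : ⌊Real.exp v⌋₊ < ⌊Real.exp u⌋₊ + 1 := by
      rw [Nat.floor_lt (Real.exp_pos v).le]
      push_cast
      exact hv1
    omega
  unfold L P
  rw [h3]

theorem exp_rpow (u r : ℝ) : Real.exp u ^ r = Real.exp (r * u) := by
  rw [mul_comm, Real.exp_mul]

/-- The upper bound for the ratios, in logarithmic form. -/
theorem le_log {r ρ : ℝ} (hr : 0 < r) (h : RatioLe a b r ρ) {ε : ℝ} (hε : 0 < ε) :
    ∀ᶠ u in atTop, L a b (r * u) ≤ L a b u + ρ * Real.log r + ε := by
  have hp : 0 < r ^ ρ := Real.rpow_pos_of_pos hr ρ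
  have h1 : 0 < r ^ ρ * (Real.exp ε - 1) := by
    have := Real.add_one_lt_exp hε.ne'
    exact mul_pos hp (by linarith)
  filter_upwards [Real.tendsto_exp_atTop.eventually (h _ h1)] with u hu
  rw [exp_rpow, div_le_iff₀ (P_pos _)] at hu
  have h2 : r ^ ρ + r ^ ρ * (Real.exp ε - 1) = r ^ ρ * Real.exp ε := by ring
  rw [h2] at hu
  unfold L
  have h3 := Real.log_le_log (P_pos _) hu
  rw [Real.log_mul (by positivity) (P_pos _).ne', Real.log_mul hp.ne' (Real.exp_pos ε).ne',
    Real.log_exp, Real.log_rpow hr] at h3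
  linarith

/-- The lower bound for the ratios, in logarithmic form. -/
theorem ge_log {r ρ : ℝ} (hr : 0 < r) (h : RatioGe a b r ρ) {ε : ℝ} (hε : 0 < ε) :
    ∀ᶠ u in atTop, L a b u + ρ * Real.log r - ε ≤ L a b (r * u) := by
  have hp : 0 < r ^ ρ := Real.rpow_pos_of_pos hr ρ
  have h1 : 0 < r ^ ρ * (1 - Real.exp (-ε)) := by
    have : Real.exp (-ε) < 1 := by
      rw [← Real.exp_zero]
      exact Real.exp_lt_exp.2 (by linarith)
    exact mul_pos hp (by linarith)
  filter_upwards [Real.tendsto_exp_atTop.eventually (h _ h1)] with u hu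
  rw [exp_rpow, le_div_iff₀ (P_pos _)] at hu
  have h2 : r ^ ρ - r ^ ρ * (1 - Real.exp (-ε)) = r ^ ρ * Real.exp (-ε) := by ring
  rw [h2] at hu
  unfold L
  have h3 := Real.log_le_log (mul_pos (mul_pos hp (Real.exp_pos _)) (P_pos _)) hu
  rw [Real.log_mul (by positivity) (P_pos _).ne', Real.log_mul hp.ne' (Real.exp_pos _).ne',
    Real.log_exp, Real.log_rpow hr] at h3
  linarith

theorem growth {r ρ ρ' : ℝ} (hr : 1 < r) (h : RatioLe a b r ρ) (hρ : ρ < ρ') :
    ∃ M : ℝ, ∀ᶠ x : ℝ in atTop, Real.log (P a b x) ≤ ρ' * Real.log (Real.log x) + M := by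
  have hl : 0 < Real.log r := Real.log_pos hr
  have hr0 : 0 < r := by linarith
  obtain ⟨n0, hn0⟩ := eventually_atTop.1 (le_log hr0 h (mul_pos (sub_pos.2 hρ) hl))
  set n := max n0 1 with hn
  have hn1 : 1 ≤ n := le_max_right _ _
  obtain ⟨M, hM⟩ := L_bdd a b (r * n)
  have key := Pool.Agent.V11333.Karamata.iterate (f := fun u => L a b u - ρ' * Real.log u)
    (M := M + |ρ'| * Real.log (r * n)) hr (zero_lt_one.trans_le hn1) (fun u hu => by
      have h1 := hn0 u ((le_max_left _ _).trans hu)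
      have hu0 : 0 < u := zero_lt_one.trans_le (hn1.trans hu)
      rw [Real.log_mul hr0.ne' hu0.ne']
      linarith) (fun u h1 h2 => by
      have h3 := (abs_le.1 (hM u h2)).2
      have hu1 : 1 ≤ u := hn1.trans h1
      have h4 : 0 ≤ Real.log u := Real.log_nonneg hu1
      have h5 : Real.log u ≤ Real.log (r * n) := Real.log_le_log (by linarith) h2
      have h6 : -(ρ' * Real.log u) ≤ |ρ'| * Real.log u := by
        rw [← neg_mul]
        exact mul_le_mul_of_nonneg_right (neg_le_abs ρ') h4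
      have h7 := mul_le_mul_of_nonneg_left h5 (abs_nonneg ρ')
      linarith)
  refine ⟨M + |ρ'| * Real.log (r * n), ?_⟩
  filter_upwards [eventually_ge_atTop (Real.exp n)] with x hx
  have hx0 : 0 < x := (Real.exp_pos n).trans_le hx
  have h1 : n ≤ Real.log x := by rwa [Real.le_log_iff_exp_le hx0]
  have h2 := key (Real.log x) h1
  unfold L at h2
  rw [Real.exp_log hx0] at h2
  linarith

theorem growth_low {r ρ ρ' : ℝ} (hr : 1 < r) (h : RatioGe a b r ρ) (hρ : ρ' < ρ) :
    ∃ M : ℝ, ∀ᶠ x : ℝ in atTop, ρ' * Real.log (Real.log x) - M ≤ Real.log (P a b x) := by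
  have hl : 0 < Real.log r := Real.log_pos hr
  have hr0 : 0 < r := by linarith
  obtain ⟨n0, hn0⟩ := eventually_atTop.1 (ge_log hr0 h (mul_pos (sub_pos.2 hρ) hl))
  set n := max n0 1 with hn
  have hn1 : 1 ≤ n := le_max_right _ _
  obtain ⟨M, hM⟩ := L_bdd a b (r * n)
  have key := Pool.Agent.V11333.Karamata.iterate (f := fun u => ρ' * Real.log u - L a b u)
    (M := M + |ρ'| * Real.log (r * n)) hr (zero_lt_one.trans_le hn1) (fun u hu => by
      have h1 := hn0 u ((le_max_left _ _).trans hu)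
      have hu0 : 0 < u := zero_lt_one.trans_le (hn1.trans hu)
      rw [Real.log_mul hr0.ne' hu0.ne']
      linarith) (fun u h1 h2 => by
      have h3 := (abs_le.1 (hM u h2)).1
      have hu1 : 1 ≤ u := hn1.trans h1
      have h4 : 0 ≤ Real.log u := Real.log_nonneg hu1
      have h5 : Real.log u ≤ Real.log (r * n) := Real.log_le_log (by linarith) h2
      have h6 : ρ' * Real.log u ≤ |ρ'| * Real.log u :=
        mul_le_mul_of_nonneg_right (le_abs_self ρ') h4
      have h7 := mul_le_mul_of_nonneg_left h5 (abs_nonneg ρ')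
      linarith)
  refine ⟨M + |ρ'| * Real.log (r * n), ?_⟩
  filter_upwards [eventually_ge_atTop (Real.exp n)] with x hx
  have hx0 : 0 < x := (Real.exp_pos n).trans_le hx
  have h1 : n ≤ Real.log x := by rwa [Real.le_log_iff_exp_le hx0]
  have h2 := key (Real.log x) h1
  unfold L at h2
  rw [Real.exp_log hx0] at h2
  linarith

/-- **One ratio, from above.** -/
theorem one_up (hF : IsLSeries a b F) {m : ℕ} (hm : analyticOrderAt F 1 = m) {r ρ : ℝ}
    (hr : 1 < r) (h : RatioLe a b r ρ) : NoZeros F ∧ (m : ℝ) ≤ ρ := by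
  constructor
  · intro s hs
    refine Pool.Agent.V11333.RieszOne.no_zeros_upper hF 0 le_rfl (fun ε hε => ?_)
      (by linarith)
    obtain ⟨M, hM⟩ := growth hr h (lt_add_one ρ)
    filter_upwards [hM, Pool.Agent.V11333.RieszOne.loglog_bound (ρ + 1) M hε] with x h1 h2
    rw [zero_add, rm0]
    exact h1.trans h2
  · refine le_of_forall_gt_imp_ge_of_dense fun ρ' hρ' => ?_
    obtain ⟨M, hM⟩ := growth hr h hρ'
    obtain ⟨M', hM'⟩ := upper hF hm 0
    refine le_of_freq (M := M + M') ((hM'.and_eventually hM).mono fun x hx => ?_)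
    obtain ⟨h2, h3⟩ := hx
    rw [rm0] at h2
    linarith

/-- **One ratio, from below.** -/
theorem one_down (hF : IsLSeries a b F) {m : ℕ} (hm : analyticOrderAt F 1 = m)
    (hne : NoRealZeros F) {r ρ : ℝ} (hr : 1 < r) (h : RatioGe a b r ρ) :
    NoZeros F ∧ ρ ≤ (m : ℝ) := by
  constructor
  · intro s hs
    refine Pool.Agent.V11333.RieszOne.no_zeros_lower hF hne 0 le_rfl (fun ε hε => ?_)
      (by linarith)
    obtain ⟨M, hM⟩ := growth_low hr h (sub_one_lt ρ)
    filter_upwards [hM, Pool.Agent.V11333.RieszOne.loglog_bound (-(ρ - 1)) M hε] with x h1 h2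
    rw [zero_add, rm0]
    linarith
  · refine le_of_forall_lt_imp_le_of_dense fun ρ' hρ' => ?_
    obtain ⟨M, hM⟩ := growth_low hr h hρ'
    obtain ⟨M', hM'⟩ := lower hF hm hne 0
    refine le_of_freq (M := M + M') ((hM'.and_eventually hM).mono fun x hx => ?_)
    obtain ⟨h2, h3⟩ := hx
    rw [rm0] at h2
    linarith

theorem real_of (h : NoZeros F) : NoRealZeros F := fun σ hσ => h σ (by simpa using hσ)

theorem lim_le {r ρ l : ℝ} (hl : r ^ ρ = l) (h : RatioLim a b r l) : RatioLe a b r ρ := by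
  intro ε hε
  filter_upwards [h.eventually (gt_mem_nhds (show l < l + ε by linarith))] with x hx
  rw [hl]
  exact hx.le

theorem lim_ge {r ρ l : ℝ} (hl : r ^ ρ = l) (h : RatioLim a b r l) : RatioGe a b r ρ := by
  intro ε hε
  filter_upwards [h.eventually (lt_mem_nhds (show l - ε < l by linarith))] with x hx
  rw [hl]
  exact hx.le

/-- **One limit.** -/
theorem one_lim (hF : IsLSeries a b F) {m : ℕ} (hm : analyticOrderAt F 1 = m) {r ρ : ℝ}
    (hr : 1 < r) (h : RatioLim a b r (r ^ ρ)) : NoZeros F ∧ ρ = m := by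
  obtain ⟨h1, h2⟩ := one_up hF hm hr (lim_le rfl h)
  obtain ⟨-, h3⟩ := one_down hF hm (real_of h1) hr (lim_ge rfl h)
  exact ⟨h1, le_antisymm h3 h2⟩

/-- The deviation is small outside a set of finite measure. -/
theorem bad_finite (hΔ : 4 * a ^ 3 + 27 * b ^ 2 ≠ 0) {N : ℕ} [NeZero N]
    {f : CuspForm (Gamma0 N : Subgroup (GL (Fin 2) ℝ)) 2} (hf : IsNewformOf a b N f)
    (hrs : Tendsto (rsSum a b) atTop (𝓝 0)) (hF : IsLSeries a b F) {m : ℕ}
    (hm : analyticOrderAt F 1 = m) (hz : NoZeros F) {c : ℝ}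
    (hc : iteratedDeriv m F 1 / (m.factorial : ℂ) =
      ((√2 * Real.exp (m * Real.eulerMascheroniConstant) / Real.exp c : ℝ) : ℂ)) {ε : ℝ}
    (hε : 0 < ε) :
    volume {u : ℝ | 1 < u ∧ ε ≤ |L a b u - m * Real.log u - c|} ≠ ⊤ := by
  obtain ⟨C₀, κ, hg⟩ := Pool.Agent.TH270.MS.EQ.growth_F hΔ hF (hecke hf) fun p hp => hf.points p hp
  have h1 : IntegrableOn (fun x : ℝ =>
      Pool.Agent.TH270.MS.EQ.devStar a b m (Real.exp c) x ^ 2 / x) (Ioi (Real.exp 1)) := by
    have t := Pool.Agent.TH270.MS.EQ.curve_law hΔ hF hrs (by norm_num : (0 : ℝ) < 1 / 8) hg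
      (m : ℝ) (Real.exp_pos c)
    have h0 : (∀ s : ℂ, 1 < s.re → F s ≠ 0) ∧ ∃ m' : ℕ, (m : ℝ) = m' ∧
        analyticOrderAt F 1 = m' ∧ iteratedDeriv m' F 1 / (m'.factorial : ℂ) =
          ((√2 * Real.exp (m' * Real.eulerMascheroniConstant) / Real.exp c : ℝ) : ℂ) :=
      ⟨hz, m, rfl, hm, hc⟩
    exact (t.out 0 3).1 h0
  -- change of variables
  set g : ℝ → ℝ := fun u => Pool.Agent.TH270.MS.EQ.devStar a b m (Real.exp c) (Real.exp u) with hgdef
  have h2 : IntegrableOn (fun u : ℝ => g u ^ 2) (Ioi 1) := by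
    have h3 := (integrableOn_image_iff_integrableOn_abs_deriv_smul (s := Ioi (1 : ℝ))
      (f := Real.exp) (f' := Real.exp) measurableSet_Ioi
      (fun x _ => (Real.hasDerivAt_exp x).hasDerivWithinAt) Real.exp_injective.injOn
      (fun x : ℝ => Pool.Agent.TH270.MS.EQ.devStar a b m (Real.exp c) x ^ 2 / x)).1 (by
        have h4 : Real.exp '' Ioi 1 ⊆ Ioi (Real.exp 1) := by
          rintro _ ⟨x, hx, rfl⟩
          exact Real.exp_lt_exp.2 hx
        exact h1.mono_set h4)
    refine h3.congr_fun (fun u _ => ?_) measurableSet_Ioi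
    simp only [smul_eq_mul, abs_of_pos (Real.exp_pos u), hgdef]
    rw [mul_div_cancel₀ _ (Real.exp_pos u).ne']
  have h3 : volume {u : ℝ | 1 < u ∧ ε / 2 ≤ |g u|} ≠ ⊤ := by
    have h4 := Integrable.measure_norm_ge_lt_top h2 (ε := (ε / 2) ^ 2) (by positivity)
    rw [Measure.restrict_apply' measurableSet_Ioi] at h4
    refine ((measure_mono ?_).trans_lt h4).ne
    rintro u ⟨hu1, hu2⟩
    refine ⟨?_, hu1⟩
    show (ε / 2) ^ 2 ≤ ‖g u ^ 2‖
    rw [Real.norm_of_nonneg (sq_nonneg _), ← sq_abs (g u)]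
    exact pow_le_pow_left₀ (by positivity) hu2 2
  -- comparison
  have h4 := ((corr_tendsto hΔ hrs).comp Real.tendsto_exp_atTop).eventually
    (Metric.ball_mem_nhds _ (half_pos hε))
  obtain ⟨U, hU⟩ := eventually_atTop.1 (h4.and (eventually_gt_atTop 0))
  have h5 : {u : ℝ | 1 < u ∧ ε ≤ |L a b u - m * Real.log u - c|} ⊆
      Icc 1 U ∪ {u : ℝ | 1 < u ∧ ε / 2 ≤ |g u|} := by
    rintro u ⟨hu1, hu2⟩
    rcases le_total u U with hu | hu
    · exact Or.inl ⟨hu1.le, hu⟩
    · refine Or.inr ⟨hu1, ?_⟩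
      obtain ⟨h6, h7⟩ := hU u hu
      rw [Real.dist_eq, Function.comp_apply] at h6
      set Sg := ∑ p ∈ (Finset.range (⌊Real.exp u⌋₊ + 1)).filter
        (fun p => GoodPrime a b p ∧ √(Real.exp u) < p),
          (((p : ℝ) - pointCount a b p) ^ 2 - 2 * p) / (2 * (p : ℝ) ^ 2) with hSg
      have h8 : g u = L a b u - m * Real.log u - c + (Sg + Real.log 2 / 2) := by
        simp only [hgdef]
        unfold Pool.Agent.TH270.MS.EQ.devStar bsdStar L
        rw [Real.log_exp]
        have e1 : 0 < bsdProduct a b (Real.exp u) := bsdProduct_pos _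
        have e2 : (0 : ℝ) < √2 := by positivity
        have e3 : 0 < u ^ (m : ℝ) := Real.rpow_pos_of_pos h7 _
        rw [Real.log_div (by positivity) (by positivity), Real.log_mul e2.ne' (by positivity),
          Real.log_mul e1.ne' (Real.exp_pos _).ne', Real.log_exp,
          Real.log_mul (Real.exp_pos c).ne' e3.ne', Real.log_exp, Real.log_rpow h7,
          Pool.Agent.TH270.MS.EQ.log_sqrt_two]
        have e4 : Real.log (bsdProduct a b (Real.exp u)) = Real.log (P a b (Real.exp u)) := rfl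
        rw [e4, ← hSg]
        ring
      have h9 : L a b u - m * Real.log u - c = g u - (Sg + Real.log 2 / 2) := by
        rw [h8]
        ring
      rw [h9] at hu2
      have h10 := abs_sub (g u) (Sg + Real.log 2 / 2)
      have h11 : |Sg + Real.log 2 / 2| < ε / 2 := by
        have e5 : Sg + Real.log 2 / 2 = Sg - -(Real.log 2 / 2) := by ring
        rw [e5]
        exact h6
      linarith
  refine ne_top_of_le_ne_top ?_ ((measure_mono h5).trans (measure_union_le _ _))
  refine ENNReal.add_ne_top.2 ⟨?_, h3⟩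
  rw [Real.volume_Icc]
  exact ENNReal.ofReal_ne_top

/-- From the smallness of the deviation to the asymptotic formula. -/
theorem asymp {m : ℕ} {c : ℝ} (h : Tendsto (fun u : ℝ => L a b u - m * Real.log u - c) atTop (𝓝 0)) :
    Tendsto (fun x : ℝ => P a b x / Real.log x ^ m) atTop (𝓝 (Real.exp c)) := by
  have h1 := (h.comp Real.tendsto_log_atTop).add_const c
  rw [zero_add] at h1
  refine ((Real.continuous_exp.tendsto c).comp h1).congr' ?_
  filter_upwards [eventually_gt_atTop 1] with x hx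
  have hx0 : 0 < x := by linarith
  have hl : 0 < Real.log x := Real.log_pos hx
  simp only [Function.comp_apply]
  unfold L
  rw [Real.exp_log hx0, show Real.log (P a b x) - m * Real.log (Real.log x) - c + c =
    Real.log (P a b x) - m * Real.log (Real.log x) by ring, Real.exp_sub, Real.exp_log (P_pos x),
    ← Real.log_pow, Real.exp_log (pow_pos hl m)]

theorem rcont (m : ℕ) (c : ℝ) (u : ℝ) (hu : 0 < u) :
    ContinuousWithinAt (fun u : ℝ => L a b u - m * Real.log u - c) (Ioi u) u := by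
  have h1 : Tendsto (fun v : ℝ => L a b u - m * Real.log v - c) (𝓝[>] u)
      (𝓝 (L a b u - m * Real.log u - c)) := by
    have : ContinuousAt (fun v : ℝ => L a b u - m * Real.log v - c) u := by
      have := Real.continuousAt_log hu.ne'
      fun_prop
    exact this.tendsto.mono_left nhdsWithin_le_nhds
  refine h1.congr' ?_
  filter_upwards [L_right a b u] with v hv
  rw [hv]

theorem Large.nonempty {S : Set ℝ} (h : Large S) : S.Nonempty := by
  rw [nonempty_iff_ne_empty]
  rintro rfl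
  rcases h.2 with h | h
  · exact h (measure_empty)
  · exact h IsMeagre.empty

/-- **Theorem.** -/
theorem result (a b : ℤ) (hΔ : 4 * a ^ 3 + 27 * b ^ 2 ≠ 0) (F : ℂ → ℂ) (hF : IsLSeries a b F)
    (N : ℕ) [NeZero N] (f : CuspForm (Gamma0 N : Subgroup (GL (Fin 2) ℝ)) 2)
    (hf : IsNewformOf a b N f) :
    ∃ m : ℕ, analyticOrderAt F 1 = m ∧
      (∀ r ρ : ℝ, 1 < r → RatioLe a b r ρ → NoZeros F ∧ (m : ℝ) ≤ ρ) ∧
      (∀ r ρ : ℝ, 1 < r → NoRealZeros F → RatioGe a b r ρ → NoZeros F ∧ ρ ≤ (m : ℝ)) ∧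
      (∀ r l : ℝ, 1 < r → 0 < l → RatioLim a b r l → NoZeros F ∧ l = r ^ m) ∧
      (∀ ρ : ℝ, List.TFAE [
        ∃ C : ℝ, 0 < C ∧ Tendsto (fun x : ℝ => P a b x / Real.log x ^ ρ) atTop (𝓝 C),
        ρ = m ∧ NoZeros F ∧ ∃ C : ℝ, 0 < C ∧
          iteratedDeriv m F 1 / (m.factorial : ℂ) =
            ((√2 * Real.exp (m * Real.eulerMascheroniConstant) / C : ℝ) : ℂ) ∧
          Tendsto (fun x : ℝ => P a b x / Real.log x ^ m) atTop (𝓝 C),
        ∀ r : ℝ, 0 < r → RatioLim a b r (r ^ ρ),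
        ∃ S : Set ℝ, Large S ∧ ∀ r ∈ S, RatioLim a b r (r ^ ρ),
        ρ = m ∧ ∃ S : Set ℝ, Large S ∧ ∀ r ∈ S, RatioLe a b r ρ,
        ρ = m ∧ NoRealZeros F ∧ ∃ S : Set ℝ, Large S ∧ ∀ r ∈ S, RatioGe a b r ρ]) ∧
      ((∃ C : ℝ, 0 < C ∧ Tendsto (fun x : ℝ => P a b x / Real.log x ^ rank a b) atTop (𝓝 C)) ↔
        analyticOrderAt F 1 = rank a b ∧
          ∃ S : Set ℝ, Large S ∧ ∀ r ∈ S, RatioLe a b r (rank a b)) := by
  obtain ⟨m, hm⟩ := order_finite hF
  have hrs : Tendsto (rsSum a b) atTop (𝓝 0) :=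
    (hecke hf).rsSum_tendsto hΔ fun p hp => hf.points p hp
  have T : ∀ ρ : ℝ, List.TFAE [
        ∃ C : ℝ, 0 < C ∧ Tendsto (fun x : ℝ => P a b x / Real.log x ^ ρ) atTop (𝓝 C),
        ρ = m ∧ NoZeros F ∧ ∃ C : ℝ, 0 < C ∧
          iteratedDeriv m F 1 / (m.factorial : ℂ) =
            ((√2 * Real.exp (m * Real.eulerMascheroniConstant) / C : ℝ) : ℂ) ∧
          Tendsto (fun x : ℝ => P a b x / Real.log x ^ m) atTop (𝓝 C),
        ∀ r : ℝ, 0 < r → RatioLim a b r (r ^ ρ),
        ∃ S : Set ℝ, Large S ∧ ∀ r ∈ S, RatioLim a b r (r ^ ρ),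
        ρ = m ∧ ∃ S : Set ℝ, Large S ∧ ∀ r ∈ S, RatioLe a b r ρ,
        ρ = m ∧ NoRealZeros F ∧ ∃ S : Set ℝ, Large S ∧ ∀ r ∈ S, RatioGe a b r ρ] := by
    intro ρ
    tfae_have 1 → 3 := by
      rintro ⟨C, hC, h⟩ r hr
      have h1 : Tendsto (fun x : ℝ => x ^ r) atTop atTop := tendsto_rpow_atTop hr
      have h2 := ((h.comp h1).div h hC.ne').const_mul (r ^ ρ)
      rw [div_self hC.ne', mul_one] at h2
      refine h2.congr' ?_
      filter_upwards [eventually_gt_atTop 1] with x hx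
      have hl : 0 < Real.log x := Real.log_pos hx
      have e1 : Real.log (x ^ r) = r * Real.log x := Real.log_rpow (by linarith) r
      have e2 : 0 < Real.log x ^ ρ := Real.rpow_pos_of_pos hl ρ
      have e3 : 0 < r ^ ρ := Real.rpow_pos_of_pos hr ρ
      have e4 : 0 < P a b x := P_pos x
      simp only [Pi.div_apply, Function.comp_apply]
      rw [e1, Real.mul_rpow hr.le hl.le]
      field_simp
    tfae_have 3 → 4 := by
      intro h
      refine ⟨Ioi 1, ⟨fun r hr => hr, Or.inl ?_⟩, fun r hr => h r (zero_lt_one.trans hr)⟩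
      rw [Real.volume_Ioi]
      exact ENNReal.top_ne_zero
    tfae_have 4 → 5 := by
      rintro ⟨S, hS, h⟩
      obtain ⟨r, hr⟩ := hS.nonempty
      exact ⟨(one_lim hF hm (hS.1 r hr) (h r hr)).2, S, hS, fun r hr => lim_le rfl (h r hr)⟩
    tfae_have 4 → 6 := by
      rintro ⟨S, hS, h⟩
      obtain ⟨r, hr⟩ := hS.nonempty
      obtain ⟨h1, h2⟩ := one_lim hF hm (hS.1 r hr) (h r hr)
      exact ⟨h2, real_of h1, S, hS, fun r hr => lim_ge rfl (h r hr)⟩
    tfae_have 5 → 2 := by
      rintro ⟨rfl, S, hS, h⟩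
      obtain ⟨r, hr⟩ := hS.nonempty
      obtain ⟨hz, -⟩ := one_up hF hm (hS.1 r hr) (h r hr)
      obtain ⟨c, hc⟩ := Pool.Agent.V11288.BS.lead_pos hΔ hrs hF hm hz
      refine ⟨rfl, hz, Real.exp c, Real.exp_pos c, hc, asymp ?_⟩
      refine Pool.Agent.V11333.Karamata.tendsto_zero (rcont m c)
        (fun ε hε => bad_finite hΔ hf hrs hF hm hz hc hε) hS.1 hS.2 fun r hr ε hε => ?_
      have hr0 : 0 < r := zero_lt_one.trans (hS.1 r hr)
      filter_upwards [le_log hr0 (h r hr) hε, eventually_gt_atTop 0] with u hu hu0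
      rw [Real.log_mul hr0.ne' hu0.ne']
      linarith
    tfae_have 6 → 2 := by
      rintro ⟨rfl, hne, S, hS, h⟩
      obtain ⟨r, hr⟩ := hS.nonempty
      obtain ⟨hz, -⟩ := one_down hF hm hne (hS.1 r hr) (h r hr)
      obtain ⟨c, hc⟩ := Pool.Agent.V11288.BS.lead_pos hΔ hrs hF hm hz
      refine ⟨rfl, hz, Real.exp c, Real.exp_pos c, hc, asymp ?_⟩
      have key := Pool.Agent.V11333.Karamata.tendsto_zero
        (h := fun u : ℝ => -(L a b u - m * Real.log u - c))
        (fun u hu => (rcont m c u hu).neg)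
        (fun ε hε => by
          have := bad_finite hΔ hf hrs hF hm hz hc hε
          simpa only [abs_neg] using this) hS.1 hS.2 fun r hr ε hε => by
          have hr0 : 0 < r := zero_lt_one.trans (hS.1 r hr)
          filter_upwards [ge_log hr0 (h r hr) hε, eventually_gt_atTop 0] with u hu hu0
          rw [Real.log_mul hr0.ne' hu0.ne']
          linarith
      have k2 := key.neg
      simpa only [neg_neg, neg_zero] using k2
    tfae_have 2 → 1 := by
      rintro ⟨rfl, -, C, hC, -, h⟩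
      refine ⟨C, hC, h.congr fun x => ?_⟩
      rw [Real.rpow_natCast]
    tfae_finish
  refine ⟨m, hm, fun r ρ hr h => one_up hF hm hr h, fun r ρ hr hne h => one_down hF hm hne hr h,
    fun r l hr hl h => ?_, T, ?_⟩
  · have hlr : 0 < Real.log r := Real.log_pos hr
    have hr0 : 0 < r := by linarith
    have e : r ^ (Real.log l / Real.log r) = l := by
      rw [Real.rpow_def_of_pos hr0, mul_div_cancel₀ _ hlr.ne', Real.exp_log hl]
    rw [← e] at h
    obtain ⟨h1, h2⟩ := one_lim hF hm hr h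
    refine ⟨h1, ?_⟩
    rw [← e, h2, Real.rpow_natCast]
  · constructor
    · rintro ⟨C, hC, h⟩
      have h1 : ∃ C : ℝ, 0 < C ∧
          Tendsto (fun x : ℝ => P a b x / Real.log x ^ ((rank a b : ℕ) : ℝ)) atTop (𝓝 C) :=
        ⟨C, hC, h.congr fun x => by rw [Real.rpow_natCast]⟩
      obtain ⟨h2, S, hS, h3⟩ := ((T (rank a b)).out 0 4).1 h1
      have h4 : rank a b = m := by exact_mod_cast h2
      exact ⟨by rw [hm, h4], S, hS, h3⟩
    · rintro ⟨h1, S, hS, h2⟩
      have h3 : (m : ℝ) = rank a b := by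
        rw [hm] at h1
        exact_mod_cast h1
      have h4 : ((rank a b : ℕ) : ℝ) = m ∧ ∃ S : Set ℝ, Large S ∧
          ∀ r ∈ S, RatioLe a b r (rank a b) := ⟨h3.symm, S, hS, h2⟩
      obtain ⟨C, hC, h⟩ := ((T (rank a b)).out 4 0).1 h4
      exact ⟨C, hC, h.congr fun x => by rw [Real.rpow_natCast]⟩

end Pool.Agent.Results.MP_32c55d_nt.RatioCriterion
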