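import Pool.Agent.Results.MP_32c55d_nt.TwoCurvesMultiquadratic
import Pool.Agent.V1110.SpB

/-!
# The rank conjecture for two elliptic curves over multiquadratic fields, with the discriminants in a
# sparse sequence

`E_M : y² = x³ + 5805 M² x - 285714 M³` is the twist by `M` of `X_0(14)` (no complex multiplication) and
`A_L : y² = x³ - 35 L² x - 98 L³` the twist by `L` of `X_0(49)` (complex multiplication). The hand-in
`TwoCurvesMultiquadratic` of this problem proves the rank conjecture, with order zero, for both curves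
over `ℚ(√d_1, …, √d_n)` if `(d, M, L)` is good, and shows that for good `(d, M, L)` the proportion of the
`D` of the base family with `(d, D, M, L)` good is exactly `c ^ (2 ^ (n + 1))`.

Here `D` runs through the terms `⌊α n ^ p⌋` of a sparse sequence which are in the base family, where
`p > 1` is any real number. There is a set `A₀` of real numbers of Hausdorff dimension smaller than
one, such that for all real `α > 0` not in `A₀` the proportion is the same for all good `(d, M, L)`, so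
that there are infinite towers of multiquadratic fields over which the rank conjecture holds for both
curves, generated by the square roots of terms of the sequence.
-/

set_option autoImplicit false

open Filter Topology

namespace Pool.Agent.Results.MP_32c55d_nt.SparseSequences

open Pool.Agent.Results.MP_32c55d_nt.TwoCurvesMultiquadratic

/-- the number of the `1 ≤ n ≤ N` such that `⌊α n ^ p⌋` has the property `Q` -/
noncomputable def along (α p : ℝ) (Q : ℕ → Prop) (N : ℕ) : ℕ :=
  Nat.card {n : ℕ // (1 ≤ n ∧ n ≤ N) ∧ Q ⌊α * (n : ℝ) ^ p⌋₊}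

/-- `D` is in the base family and all the twists of the two curves by `M D z`, `L D z`, `z` a product of
some of the `d_i`, have rank zero and no element of order two in the Tate-Shafarevich group -/
def AllTwists {n : ℕ} (d : Fin n → ℤ) (M L : ℤ) (D : ℕ) : Prop :=
  Base D ∧ ∀ T : Finset (Fin n),
    RankZeroShaTwo (a14 (M * D * ∏ i ∈ T, d i)) (b14 (M * D * ∏ i ∈ T, d i)) ∧
    RankZeroShaTwo (a49 (L * D * ∏ i ∈ T, d i)) (b49 (L * D * ∏ i ∈ T, d i))

/-- `D` is in the base family and `(d, D, M, L)` is good -/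
def GoodExt {n : ℕ} (d : Fin n → ℤ) (M L : ℤ) (D : ℕ) : Prop :=
  Base D ∧ Good (Fin.snoc d (D : ℤ) : Fin (n + 1) → ℤ) M L

lemma card_filter_true {α : Type} (s : Finset α) (inst : DecidablePred fun _ : α => True) :
    (@Finset.filter α (fun _ => True) inst s).card = s.card :=
  congrArg Finset.card (@Finset.filter_true_of_mem α (fun _ => True) inst s fun _ _ => trivial)

lemma card_flt {α : Type} (P Q : α → Prop) (ip : DecidablePred P) (iq : DecidablePred Q)
    (s : Finset α) (h : ∀ a, P a ↔ Q a) :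
    (@Finset.filter α P ip s).card = (@Finset.filter α Q iq s).card :=
  congrArg Finset.card (Finset.ext fun a => (@Finset.mem_filter α P ip s a).trans
    ((and_congr_right fun _ => h a).trans (@Finset.mem_filter α Q iq s a).symm))

/-- the size of the base family -/
lemma low : ∃ (c : ℝ) (X₀ : ℕ), 0 < c ∧ ∀ X : ℕ, X₀ ≤ X →
    c * X * (Real.log X) ^ (-(3 / 4) : ℝ) ≤ (Nat.card {D : ℕ // (1 ≤ D ∧ D ≤ X) ∧ Base D} : ℝ) := by
  classical
  obtain ⟨c, X₀, hc, h⟩ := Pool.Agent.Y302.CQ.t_LOW Pool.Agent.Y405.CQ.t_MER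
    Pool.Agent.Y302.CQ.t_CHE {5} {0} ⟨Or.inl rfl, Or.inl (Finset.mem_singleton_self 0)⟩
  refine ⟨c, X₀, hc, fun X hX => ?_⟩
  have h1 := h X hX
  have e : (-1 + Pool.Agent.Y703.CQ.dl {5} : ℝ) = -(3 / 4) := by
    unfold Pool.Agent.Y703.CQ.dl
    rw [Finset.card_singleton]
    norm_num
  rw [e] at h1
  refine h1.trans (le_of_eq ?_)
  have h2 := Pool.Agent.Y514.CQ.card_eq {5} {0} X (fun _ => True)
  rw [card_filter_true] at h2
  have h4 : (Pool.Agent.Y703.CQ.SS {5} {0} X).card =
      ((Finset.Icc 1 X).filter Pool.Agent.V11291.E49.BaseN).card := by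
    refine h2.symm.trans (card_flt _ _ _ _ _ fun D => ?_)
    rw [Pool.Agent.V11291.E49.base_iff, and_true]
  have h5 : Nat.card {D : ℕ // (1 ≤ D ∧ D ≤ X) ∧ Base D} =
      ((Finset.Icc 1 X).filter Pool.Agent.V11291.E49.BaseN).card := by
    refine Nat.subtype_card _ fun D => ?_
    rw [Finset.mem_filter, Finset.mem_Icc]
    exact Iff.rfl
  rw [h5]
  exact congrArg (fun n : ℕ => (n : ℝ)) h4

/-- large terms of the sequence -/
lemma exists_term {α p c : ℝ} {P Q : ℕ → Prop} (hc : 0 < c) (A : ℝ)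
    (hp : Tendsto (fun N : ℕ => (along α p P N : ℝ) / along α p Q N) atTop (𝓝 c))
    (hQ : ∃ b : ℝ, 0 < b ∧ ∃ N₀ : ℕ, ∀ N : ℕ, N₀ ≤ N →
      b * N * (Real.log N) ^ (-A) ≤ (along α p Q N : ℝ)) (B : ℕ) :
    ∃ n : ℕ, B < n ∧ P ⌊α * (n : ℝ) ^ p⌋₊ := by
  classical
  by_contra hcon
  push Not at hcon
  obtain ⟨b, hb, N₀, hN₀⟩ := hQ
  have h2 : ∀ N : ℕ, (along α p P N : ℝ) ≤ (B : ℝ) := by
    intro N
    have h3 : along α p P N = ((Finset.Icc 1 N).filter fun n : ℕ => P ⌊α * (n : ℝ) ^ p⌋₊).card := by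
      unfold along
      refine Nat.subtype_card _ fun n => ?_
      rw [Finset.mem_filter, Finset.mem_Icc]
    have h4 : ((Finset.Icc 1 N).filter fun n : ℕ => P ⌊α * (n : ℝ) ^ p⌋₊) ⊆ Finset.Icc 1 B := by
      intro n hn
      rw [Finset.mem_filter] at hn
      rw [Finset.mem_Icc]
      refine ⟨(Finset.mem_Icc.1 hn.1).1, ?_⟩
      by_contra h5
      exact hcon n (by omega) hn.2
    have h5 := Finset.card_le_card h4
    rw [Nat.card_Icc, Nat.add_sub_cancel, ← h3] at h5
    exact_mod_cast h5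
  have htop : Tendsto (fun N : ℕ => (along α p Q N : ℝ)) atTop atTop := by
    obtain ⟨N₁, hN₁⟩ := Pool.Agent.V1110.SpA.beats b A (1 / 2) 1 hb (by norm_num)
    have h1 : Tendsto (fun N : ℕ => (N : ℝ) ^ (1 / 2 : ℝ)) atTop atTop :=
      (tendsto_rpow_atTop (by norm_num)).comp tendsto_natCast_atTop_atTop
    refine tendsto_atTop_mono' _ ?_ h1
    filter_upwards [eventually_ge_atTop (max N₀ N₁)] with N hN
    have h3 := hN₀ N ((le_max_left _ _).trans hN)
    have h4 := hN₁ N ((le_max_right _ _).trans hN)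
    rw [Real.rpow_neg (Real.log_natCast_nonneg N), ← div_eq_mul_inv] at h3
    have e : (1 : ℝ) - 1 / 2 = 1 / 2 := by norm_num
    rw [e, one_mul] at h4
    exact h4.trans h3
  have h3 : Tendsto (fun N : ℕ => (B : ℝ) / (along α p Q N : ℝ)) atTop (𝓝 0) :=
    htop.const_div_atTop _
  have h4 : c ≤ 0 := by
    refine le_of_tendsto_of_tendsto hp h3 (Eventually.of_forall fun N => ?_)
    exact div_le_div_of_nonneg_right (h2 N) (Nat.cast_nonneg _)
  linarith

/-- **Main theorem.** Let `p > 1` be a real number. There is a set `A₀` of real numbers of Hausdorff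
dimension smaller than one such that for all real `α > 0` not in `A₀`:
(1) For at least `b N (log N)^(-3/4)` of the `n ≤ N` (`b > 0`) the number `⌊α n ^ p⌋` is in the base family.
(2) Let `d_1, …, d_n` be elements of the base family up to squares, independent modulo squares, `M` in
`Fam14`, `L` in `Fam49`. Among the `n` such that `D = ⌊α n ^ p⌋` is in the base family the proportion of
those such that all the twists of the two curves by `M D z`, `L D z` (`z` the products of some of the
`d_i`) have rank zero and no element of order two in the Tate-Shafarevich group is exactly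
`c ^ (2 ^ (n + 1))`, and the same holds for the condition that `(d, D, M, L)` is good, if `(d, M, L)` is
good.
(3) Let `M` be in `Fam14`, `L` in `Fam49`, `(∅, M, L)` good (for example `M = L = 1`). There are
`ν_0 < ν_1 < …` such that the numbers `D_j = ⌊α ν_j ^ p⌋` are in the base family and for all `j` and all
number fields `K = ℚ(√D_0, …, √D_{j-1})`: `[K : ℚ] = 2 ^ j` and the rank conjecture holds, with rank and
order zero, for `E_M` and for `A_L` over `K`. -/
theorem result (p : ℝ) (hp : 1 < p) :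
    ∃ A₀ : Set ℝ, dimH A₀ < 1 ∧ ∀ α : ℝ, 0 < α → α ∉ A₀ →
      (∃ b : ℝ, 0 < b ∧ ∃ N₀ : ℕ, ∀ N : ℕ, N₀ ≤ N →
        b * N * (Real.log N) ^ (-(3 / 4) : ℝ) ≤ (along α p Base N : ℝ)) ∧
      (∀ (n : ℕ) (d : Fin n → ℤ) (M L : ℤ), Indep d → InBase d → Fam14 M → Fam49 L →
        Tendsto (fun N : ℕ => (along α p (AllTwists d M L) N : ℝ) / along α p Base N) atTop
          (𝓝 (c ^ 2 ^ (n + 1)))) ∧
      (∀ (n : ℕ) (d : Fin n → ℤ) (M L : ℤ), InBase d → Fam14 M → Fam49 L → Good d M L →
        Tendsto (fun N : ℕ => (along α p (GoodExt d M L) N : ℝ) / along α p Base N) atTop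
          (𝓝 (c ^ 2 ^ (n + 1)))) ∧
      ∀ M L : ℤ, Fam14 M → Fam49 L → Good (fun i : Fin 0 => i.elim0) M L →
        ∃ ν : ℕ → ℕ, StrictMono ν ∧ (∀ j, Base ⌊α * (ν j : ℝ) ^ p⌋₊) ∧
          ∀ (j : ℕ) (K : Type) [Field K] [NumberField K],
            IsMultiquadratic (fun i : Fin j => ((⌊α * (ν i : ℝ) ^ p⌋₊ : ℕ) : ℤ)) K →
            Module.finrank ℚ K = 2 ^ j ∧
              RankConjZero K (a14 M) (b14 M) (∏ i : Fin j, ((⌊α * (ν i : ℝ) ^ p⌋₊ : ℕ) : ℤ)) ∧
              RankConjZero K (a49 L) (b49 L)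
                (∏ i : Fin j, ((⌊α * (ν i : ℝ) ^ p⌋₊ : ℕ) : ℤ)) := by
  classical
  obtain ⟨A₀, hA₀, h⟩ := Pool.Agent.V1110.SpA.ratio_nat p hp
    (ι := Bool × Σ n : ℕ, (Fin n → ℤ) × ℤ × ℤ)
    (fun v => if v.1 then AllTwists v.2.2.1 v.2.2.2.1 v.2.2.2.2
      else GoodExt v.2.2.1 v.2.2.2.1 v.2.2.2.2) (fun _ => Base)
  refine ⟨A₀, hA₀, fun α hα hαA => ?_⟩
  obtain ⟨hconj, hall, hgood, hone, hc1, hc2⟩ := TwoCurvesMultiquadratic.result
  obtain ⟨a, X₀, ha, hX₀⟩ := low
  have hQ : ∃ X0 : ℕ, ∀ X : ℕ, X0 ≤ X → a * X * (Real.log X) ^ (-(3 / 4) : ℝ) ≤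
      (Nat.card {D : ℕ // (1 ≤ D ∧ D ≤ X) ∧ Base D} : ℝ) := ⟨X₀, hX₀⟩
  have htot : ∀ X : ℕ, count (fun _ => True) X =
      Nat.card {D : ℕ // (1 ≤ D ∧ D ≤ X) ∧ Base D} := by
    intro X
    unfold count
    refine Nat.card_congr (Equiv.subtypeEquivRight fun D => ?_)
    tauto
  have kall : ∀ (n : ℕ) (d : Fin n → ℤ) (M L : ℤ), Indep d → InBase d → Fam14 M → Fam49 L →
      Tendsto (fun N : ℕ => (along α p (AllTwists d M L) N : ℝ) / along α p Base N) atTop
          (𝓝 (c ^ 2 ^ (n + 1))) ∧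
      ∃ b : ℝ, 0 < b ∧ ∃ N0 : ℕ, ∀ N : ℕ, N0 ≤ N →
        b * N * (Real.log N) ^ (-(3 / 4) : ℝ) ≤ (along α p Base N : ℝ) := by
    intro n d M L h1 h2 h3 h4
    have h5 := h α hα hαA (true, ⟨n, d, M, L⟩) (c ^ 2 ^ (n + 1)) a (3 / 4) ha (by norm_num) hQ
    simp only [if_true] at h5
    refine h5 ((hall n d M L h1 h2 h3 h4).congr fun X => ?_)
    rw [htot]
    rfl
  have kgood : ∀ (n : ℕ) (d : Fin n → ℤ) (M L : ℤ), InBase d → Fam14 M → Fam49 L → Good d M L →
      Tendsto (fun N : ℕ => (along α p (GoodExt d M L) N : ℝ) / along α p Base N) atTop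
          (𝓝 (c ^ 2 ^ (n + 1))) ∧
      ∃ b : ℝ, 0 < b ∧ ∃ N0 : ℕ, ∀ N : ℕ, N0 ≤ N →
        b * N * (Real.log N) ^ (-(3 / 4) : ℝ) ≤ (along α p Base N : ℝ) := by
    intro n d M L h1 h2 h3 h4
    have h5 := h α hα hαA (false, ⟨n, d, M, L⟩) (c ^ 2 ^ (n + 1)) a (3 / 4) ha (by norm_num) hQ
    simp only [Bool.false_eq_true, if_false] at h5
    refine h5 ((hgood n d M L h1 h2 h3 h4).congr fun X => ?_)
    rw [htot]
    rfl
  have hc0 : 0 < c := by linarith
  refine ⟨?_, fun n d M L h1 h2 h3 h4 => (kall n d M L h1 h2 h3 h4).1,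
    fun n d M L h1 h2 h3 h4 => (kgood n d M L h1 h2 h3 h4).1, fun M L hM hL hML => ?_⟩
  · refine (kgood 0 (fun i => i.elim0) 1 1 (fun i => i.elim0) ?_ ?_ (hone _)).2
    · refine ⟨squarefree_one, by norm_num, by norm_num, fun q hq hd => ?_⟩
      exact absurd (Nat.dvd_one.1 (by exact_mod_cast hd)) hq.one_lt.ne'
    · refine ⟨squarefree_one, by norm_num, fun q hq hd => ?_⟩
      exact absurd (Nat.dvd_one.1 (by exact_mod_cast hd)) hq.one_lt.ne'
  · -- the tower
    let Dv : ℕ → ℕ := fun n => ⌊α * (n : ℝ) ^ p⌋₊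
    let St : Type := {U : ℕ × (ℕ → ℕ) × ℕ // (∀ i < U.1, Base (Dv (U.2.1 i))) ∧
      (∀ i < U.1, U.2.1 i ≤ U.2.2) ∧ Good (fun i : Fin U.1 => (Dv (U.2.1 i) : ℤ)) M L}
    have hin : ∀ (j : ℕ) (v : ℕ → ℕ), (∀ i < j, Base (Dv (v i))) →
        InBase (fun i : Fin j => (Dv (v i) : ℤ)) := fun j v hv i =>
      ⟨Dv (v i), 1, hv i i.2, one_ne_zero, by ring⟩
    have step : ∀ U : St, ∃ n : ℕ, U.1.2.2 < n ∧ GoodExt (fun i : Fin U.1.1 =>
        (Dv (U.1.2.1 i) : ℤ)) M L (Dv n) := by
      intro U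
      obtain ⟨k1, k2⟩ := kgood U.1.1 (fun i : Fin U.1.1 => (Dv (U.1.2.1 i) : ℤ)) M L
        (hin _ _ U.2.1) hM hL U.2.2.2
      obtain ⟨n, hn, h1⟩ := exists_term (pow_pos hc0 _) (3 / 4) k1 k2 U.1.2.2
      exact ⟨n, hn, h1⟩
    choose f hf using step
    let g : St → St := fun U => ⟨(U.1.1 + 1, Function.update U.1.2.1 U.1.1 (f U), f U), by
      refine ⟨fun i hi => ?_, fun i hi => ?_, ?_⟩
      · rcases eq_or_ne i U.1.1 with rfl | hne
        · simp only [Function.update_self]
          exact (hf U).2.1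
        · simp only [Function.update_of_ne hne]
          exact U.2.1 i (by simp only at hi; omega)
      · rcases eq_or_ne i U.1.1 with rfl | hne
        · simp only [Function.update_self]
          exact le_refl _
        · simp only [Function.update_of_ne hne]
          exact (U.2.2.1 i (by simp only at hi; omega)).trans (hf U).1.le
      · have h1 := (hf U).2.2
        have e : (Fin.snoc (fun i : Fin U.1.1 => (Dv (U.1.2.1 i) : ℤ)) (Dv (f U) : ℤ) :
            Fin (U.1.1 + 1) → ℤ) = fun i : Fin (U.1.1 + 1) =>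
              (Dv (Function.update U.1.2.1 U.1.1 (f U) i) : ℤ) := by
          funext i
          refine Fin.lastCases ?_ (fun i => ?_) i
          · rw [Fin.snoc_last]
            simp
          · rw [Fin.snoc_castSucc]
            have hne : ((i.castSucc : Fin (U.1.1 + 1)) : ℕ) ≠ U.1.1 := by
              simp only [Fin.val_castSucc]
              exact i.2.ne
            rw [Function.update_of_ne hne]
            rfl
        rw [e] at h1
        exact h1⟩
    have hU0 : (∀ i < 0, Base (Dv ((fun _ : ℕ => 0) i))) ∧ (∀ i < 0, (fun _ : ℕ => 0) i ≤ 0) ∧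
        Good (fun i : Fin 0 => (Dv ((fun _ : ℕ => 0) i) : ℤ)) M L := by
      refine ⟨fun i hi => absurd hi (Nat.not_lt_zero i), fun i hi => absurd hi (Nat.not_lt_zero i), ?_⟩
      have e : (fun i : Fin 0 => (Dv ((fun _ : ℕ => 0) i) : ℤ)) = fun i : Fin 0 => i.elim0 := by
        funext i
        exact i.elim0
      rw [e]
      exact hML
    let T : ℕ → St := fun j => g^[j] ⟨(0, fun _ => 0, 0), hU0⟩
    have hT : ∀ j, T (j + 1) = g (T j) := fun j => by
      show g^[j + 1] _ = _
      rw [Function.iterate_succ_apply']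
    have hT1 : ∀ j, (T j).1.1 = j := by
      intro j
      induction j with
      | zero => rfl
      | succ j ih =>
        rw [hT]
        show (T j).1.1 + 1 = j + 1
        rw [ih]
    have hTv : ∀ j i, i < j → (T j).1.2.1 i = f (T i) := by
      intro j
      induction j with
      | zero => intro i hi; exact absurd hi (Nat.not_lt_zero i)
      | succ j ih =>
        intro i hi
        rw [hT]
        show Function.update (T j).1.2.1 (T j).1.1 (f (T j)) i = f (T i)
        rw [hT1 j]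
        rcases eq_or_ne i j with rfl | hne
        · rw [Function.update_self]
        · rw [Function.update_of_ne hne]
          exact ih i (by omega)
    refine ⟨fun j => f (T j), strictMono_nat_of_lt_succ fun j => ?_, fun j => (hf (T j)).2.1,
      fun j K _ _ hK => ?_⟩
    · have h1 := (hf (T (j + 1))).1
      have h2 : (T (j + 1)).1.2.2 = f (T j) := by rw [hT]
      rw [h2] at h1
      exact h1
    · have hg : ∀ (m : ℕ) (v : ℕ → ℕ), m = j → (∀ i < m, v i = f (T i)) →
          Good (fun i : Fin m => (Dv (v i) : ℤ)) M L →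
          Good (fun i : Fin j => (Dv (f (T i)) : ℤ)) M L := by
        rintro m v rfl hv hgd
        have e : (fun i : Fin m => (Dv (v i) : ℤ)) = fun i : Fin m => (Dv (f (T i)) : ℤ) := by
          funext i
          rw [hv i i.2]
        rw [← e]
        exact hgd
      have h1 : Good (fun i : Fin j => (Dv (f (T i)) : ℤ)) M L :=
        hg (T j).1.1 (T j).1.2.1 (hT1 j) (fun i hi => hTv j i (by rw [hT1 j] at hi; exact hi))
          (T j).2.2.2
      exact hconj j _ M L (hin j (fun i => f (T i)) fun i _ => (hf (T i)).2.1) hM hL h1 K hK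

end Pool.Agent.Results.MP_32c55d_nt.SparseSequences
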