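import Pool.Agent.V11291.E49.Multi

/-!
# A CM and a non-CM curve at once over multiquadratic fields: the rank conjecture with order of
# vanishing zero, with the exact proportion

`E : y² = x³ + 5805 x - 285714` is a model of `X_0(14)` (without complex multiplication) and
`A : y² = x³ - 35 x - 98` is a model of `X_0(49)` (with complex multiplication). The curves are considered
over the fields `K = ℚ(√d_1, …, √d_n)` of degree `2ⁿ`, together with twists by `M` and `L`.

The pair of the two curves is good over `K` if for all the `2ⁿ` products `z` of some of the `d_i` the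
twists of `E` by `M z` and of `A` by `L z` have finitely many rational points and no element of order two
in `Ш`. In this case the rank and the order of vanishing at `s = 1` of the `L`-function over `K` are zero
for both curves.

The base family consists of the squarefree `D > 0` which are squares modulo `7` and all of whose prime
factors are congruent to `1` modulo `8` and split in `ℚ(√-7)`, or congruent to `5` modulo `8` and inert
in `ℚ(√-7)`. If the pair is good over `K`, the `d_i` being in the base family up to squares, then it is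
good over the quadratic extension `K(√D)` for exactly the proportion `c ^ (2 ^ (n + 1))` of the `D` of
the base family, `c = ∏_{i ≥ 0} (1 - 2^{-(2i+1)}) = 0.4194...`: the `2ⁿ` conditions for the first curve
and the `2ⁿ` conditions for the second curve are all independent. This can be iterated, starting with
`K = ℚ`.

The criterion and the nonvanishing for the twists of `X_0(14)` are the joint work of helper700,
helper17, helper687 and their teams; the central values of the twists of `X_0(49)` are the work of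
helper698 and its team; the comparison with the field `K` is by helpers 19, 73, 914 and 687; the joint
proportion is in `Pool/Agent/V11291` (see `TwoCurvesJointProportion` of `MP_696deb_nt`).
-/

set_option autoImplicit false

open NumberField IsDedekindDomain Filter Topology

namespace Pool.Agent.Results.MP_32c55d_nt.TwoCurvesMultiquadratic

open Pool.Agent.V11291.E49 (R14 R49)

/-- the curve `y² = x³ + a x + b` over the field `K` -/
def E (K : Type) [Field K] (a b : ℤ) : WeierstrassCurve K :=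
  { a₁ := 0, a₂ := 0, a₃ := 0, a₄ := (a : K), a₆ := (b : K) }

/-- coefficients of the twist by `z` of `X_0(14)` -/
def a14 (z : ℤ) : ℤ := 5805 * z ^ 2

/-- coefficients of the twist by `z` of `X_0(14)` -/
def b14 (z : ℤ) : ℤ := -285714 * z ^ 3

/-- coefficients of the twist by `z` of `X_0(49)` -/
def a49 (z : ℤ) : ℤ := -35 * z ^ 2

/-- coefficients of the twist by `z` of `X_0(49)` -/
def b49 (z : ℤ) : ℤ := -98 * z ^ 3

/-- `E(ℚ)` is finite and `Ш(E/ℚ)` has no element of order two, for `E : y² = x³ + a x + b` -/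
def RankZeroShaTwo (a b : ℤ) : Prop :=
  Finite (E ℚ a b).toAffine.Point ∧ ∀ x : Pool.Agent.TH841.SH.D.Sha (E ℚ a b), 2 • x = 0 → x = 0

/-- the number `q_v` of elements of the residue field of a finite place `v` of `K` -/
noncomputable def qv (K : Type) [Field K] (v : HeightOneSpectrum (𝓞 K)) : ℕ :=
  Nat.card (𝓞 K ⧸ v.asIdeal)

/-- `a_v = q_v + 1 - #E(k_v)`, that is `q_v` minus the number of affine points -/
noncomputable def av (K : Type) [Field K] (a b : ℤ) (v : HeightOneSpectrum (𝓞 K)) : ℤ :=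
  (qv K v : ℤ) - Nat.card {z : (𝓞 K ⧸ v.asIdeal) × (𝓞 K ⧸ v.asIdeal) //
    z.2 ^ 2 = z.1 ^ 3 + (a : 𝓞 K ⧸ v.asIdeal) * z.1 + (b : 𝓞 K ⧸ v.asIdeal)}

open Classical in
/-- `F` is entire and is, for `Re s > 3/2`, the `L`-function of `y² = x³ + a x + b` over `K` without the
Euler factors at the places that divide `2 (4 a³ + 27 b²) m` -/
def IsL (K : Type) [Field K] (a b m : ℤ) (F : ℂ → ℂ) : Prop :=
  Differentiable ℂ F ∧ ∀ s : ℂ, (3 : ℝ) / 2 < s.re →
    HasProd (fun v : HeightOneSpectrum (𝓞 K) =>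
      if ((2 * (4 * a ^ 3 + 27 * b ^ 2) * m : ℤ) : 𝓞 K) ∈ v.asIdeal then 1 else
        (1 - (av K a b v : ℂ) * (qv K v : ℂ) ^ (-s) + (qv K v : ℂ) ^ (1 - 2 * s))⁻¹) (F s)

open Classical in
/-- the rank of the group of the points over `K` -/
noncomputable def rank (K : Type) [Field K] (a b : ℤ) : ℕ :=
  Module.finrank ℤ (E K a b).toAffine.Point

/-- The rank conjecture for `E : y² = x³ + a x + b` over `K` with order of vanishing zero: `E(K)` is
finite, the `L`-function (without the Euler factors at the places that divide `2 (4 a³ + 27 b²) m`, which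
do not change the order at `s = 1`) is entire, and its order of vanishing at `s = 1` is the rank, which
is zero. -/
def RankConjZero (K : Type) [Field K] (a b m : ℤ) : Prop :=
  Finite (E K a b).toAffine.Point ∧ rank K a b = 0 ∧ (∃ F : ℂ → ℂ, IsL K a b m F) ∧
    ∀ F : ℂ → ℂ, IsL K a b m F → F 1 ≠ 0 ∧ analyticOrderAt F 1 = rank K a b

/-- primes congruent to `1` modulo `8` that split in `ℚ(√-7)` -/
def Split (p : ℕ) : Prop := p.Prime ∧ p % 8 = 1 ∧ (p % 7 = 1 ∨ p % 7 = 2 ∨ p % 7 = 4)

/-- primes inert in `ℚ(√-7)` and in `ℚ(√2)` -/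
def Inert (q : ℕ) : Prop :=
  q.Prime ∧ (q % 8 = 3 ∨ q % 8 = 5) ∧ (q % 7 = 3 ∨ q % 7 = 5 ∨ q % 7 = 6)

/-- primes congruent to `5` modulo `8` that are inert in `ℚ(√-7)` -/
def Inert5 (q : ℕ) : Prop := q.Prime ∧ q % 8 = 5 ∧ (q % 7 = 3 ∨ q % 7 = 5 ∨ q % 7 = 6)

/-- the base family: squarefree `D > 0` which are squares modulo `7` and all of whose prime factors
are in `Split` or in `Inert5` -/
def Base (D : ℕ) : Prop := Squarefree D ∧ (D % 7 = 1 ∨ D % 7 = 2 ∨ D % 7 = 4) ∧
  ∀ p : ℕ, p.Prime → p ∣ D → Split p ∨ Inert5 p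

/-- the factors `M` for the first curve (of any sign): squarefree, `1` modulo `4`, a square modulo
`7`, all prime factors different from `3` and in `Split` or in `Inert` -/
def Fam14 (M : ℤ) : Prop := Squarefree M ∧ M % 4 = 1 ∧ (M % 7 = 1 ∨ M % 7 = 2 ∨ M % 7 = 4) ∧
  ∀ p : ℕ, p.Prime → (p : ℤ) ∣ M → p ≠ 3 ∧ (Split p ∨ Inert p)

/-- the factors `L` for the second curve: squarefree, positive, all prime factors in `Split` or in
`Inert5` -/
def Fam49 (L : ℤ) : Prop :=
  Squarefree L ∧ 0 < L ∧ ∀ p : ℕ, p.Prime → (p : ℤ) ∣ L → Split p ∨ Inert5 p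

/-- `ℚ(√d_1, …, √d_n)` has degree `2ⁿ`: no product of some of the `d_i` is a square -/
def Indep {n : ℕ} (d : Fin n → ℤ) : Prop :=
  ∀ T : Finset (Fin n), T.Nonempty → ¬ IsSquare (∏ i ∈ T, d i)

/-- the `d_i` are in the base family up to squares -/
def InBase {n : ℕ} (d : Fin n → ℤ) : Prop :=
  ∀ i, ∃ (B : ℕ) (k : ℤ), Base B ∧ k ≠ 0 ∧ d i = B * k ^ 2

/-- `K = ℚ(√d_1, …, √d_n)` -/
def IsMultiquadratic {n : ℕ} (d : Fin n → ℤ) (K : Type) [Field K] [NumberField K] : Prop :=
  ∃ x : Fin n → K, (∀ i, x i ^ 2 = (d i : K)) ∧ IntermediateField.adjoin ℚ (Set.range x) = ⊤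

/-- The pair of the twist by `M` of `X_0(14)` and of the twist by `L` of `X_0(49)` is good over
`ℚ(√d_1, …, √d_n)`, a field of degree `2ⁿ`. -/
def Good {n : ℕ} (d : Fin n → ℤ) (M L : ℤ) : Prop :=
  Indep d ∧ ∀ T : Finset (Fin n),
    RankZeroShaTwo (a14 (M * ∏ i ∈ T, d i)) (b14 (M * ∏ i ∈ T, d i)) ∧
    RankZeroShaTwo (a49 (L * ∏ i ∈ T, d i)) (b49 (L * ∏ i ∈ T, d i))

/-- the number of the `D ≤ X` of the base family with `P D` -/
noncomputable def count (P : ℕ → Prop) (X : ℕ) : ℕ :=
  Nat.card {D : ℕ // (1 ≤ D ∧ D ≤ X) ∧ Base D ∧ P D}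

/-- the constant `(1 - 1/2) (1 - 1/8) (1 - 1/32) ⋯` -/
noncomputable def c : ℝ := ∏' i : ℕ, (1 - (1 / 2 : ℝ) ^ (2 * i + 1))

lemma r0_iff (a b : ℤ) : RankZeroShaTwo a b ↔ V11291.E49.R0 a b := by
  unfold RankZeroShaTwo V11291.E49.R0
  refine and_congr Iff.rfl (forall_congr' fun x => ?_)
  rw [two_nsmul]
  rfl

lemma good_iff {n : ℕ} (d : Fin n → ℤ) (M L : ℤ) :
    Good d M L ↔ (Y687.MQ.Ind d ∧ V11291.E49.G2 d M L) := by
  unfold Good V11291.E49.G2
  refine and_congr Iff.rfl ?_
  simp only [r0_iff]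
  exact forall_and

open Classical in
lemma conj_of {K : Type} [Field K] [NumberField K] {a b m : ℤ}
    (h : (∃ F : ℂ → ℂ, Y19.QT.IsLFunK K a b m F ∧ F 1 ≠ 0) ∧ Finite (Y19.QT.EK K a b)) :
    RankConjZero K a b m := by
  obtain ⟨⟨F, hF, hF1⟩, hfin⟩ := h
  have hfin' : Finite (E K a b).toAffine.Point := hfin
  have hr : rank K a b = 0 := by
    unfold rank
    rw [Module.finrank_eq_zero_iff_isTorsion]
    intro x
    obtain ⟨k, hk, hx⟩ := isOfFinAddOrder_iff_nsmul_eq_zero.1 (isOfFinAddOrder_of_finite x)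
    refine ⟨⟨(k : ℤ), mem_nonZeroDivisors_of_ne_zero (by exact_mod_cast hk.ne')⟩, ?_⟩
    show (k : ℤ) • x = 0
    rw [natCast_zsmul]
    exact hx
  refine ⟨hfin', hr, ⟨F, hF⟩, fun G hG => ?_⟩
  have hG' : Y19.QT.IsLFunK K a b m G := hG
  have hG1 : G 1 ≠ 0 := by
    rw [Y687.MQ.isLFunK_unique hG' hF]
    exact hF1
  refine ⟨hG1, ?_⟩
  rw [hr]
  exact analyticOrderAt_eq_zero.2 (Or.inr hG1)

/-- **Main theorem.**
(1) If the pair is good over `ℚ(√d_1, …, √d_n)`, then `K = ℚ(√d_1, …, √d_n)` has degree `2ⁿ` and the rank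
conjecture holds over `K` for both curves, with order of vanishing zero.
(2) For all `d`, `M` and `L` of the families the proportion of the `D` of the base family such that the
rational points of the twists of the first curve by `M D z` and of the second curve by `L D z`, `z` a
product of some of the `d_i`, are finitely many and `Ш[2] = 0` for all these twists, is exactly
`c ^ (2 ^ (n + 1))`.
(3) If the pair is good over `ℚ(√d_1, …, √d_n)`, then it is good over
`ℚ(√d_1, …, √d_n, √D)` for exactly the proportion `c ^ (2 ^ (n + 1))` of the `D` of the base family.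
(4) The pair of the curves `X_0(14)` and `X_0(49)` is good over `ℚ`; `0.4194 < c < 0.4195`. -/
theorem result :
    (∀ (n : ℕ) (d : Fin n → ℤ) (M L : ℤ), InBase d → Fam14 M → Fam49 L → Good d M L →
      ∀ (K : Type) [Field K] [NumberField K], IsMultiquadratic d K →
      Module.finrank ℚ K = 2 ^ n ∧ RankConjZero K (a14 M) (b14 M) (∏ i, d i) ∧
        RankConjZero K (a49 L) (b49 L) (∏ i, d i)) ∧
    (∀ (n : ℕ) (d : Fin n → ℤ) (M L : ℤ), Indep d → InBase d → Fam14 M → Fam49 L →
      Tendsto (fun X : ℕ => (count (fun D => ∀ T : Finset (Fin n),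
          RankZeroShaTwo (a14 (M * D * ∏ i ∈ T, d i)) (b14 (M * D * ∏ i ∈ T, d i)) ∧
          RankZeroShaTwo (a49 (L * D * ∏ i ∈ T, d i)) (b49 (L * D * ∏ i ∈ T, d i))) X : ℝ) /
        (count (fun _ => True) X : ℝ)) atTop (𝓝 (c ^ 2 ^ (n + 1)))) ∧
    (∀ (n : ℕ) (d : Fin n → ℤ) (M L : ℤ), InBase d → Fam14 M → Fam49 L → Good d M L →
      Tendsto (fun X : ℕ =>
          (count (fun D => Good (Fin.snoc d (D : ℤ) : Fin (n + 1) → ℤ) M L) X : ℝ) /
        (count (fun _ => True) X : ℝ)) atTop (𝓝 (c ^ 2 ^ (n + 1)))) ∧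
    (∀ d : Fin 0 → ℤ, Good d 1 1) ∧ 0.4194 < c ∧ c < 0.4195 := by
  classical
  have hM' : ∀ M : ℤ, Fam14 M → Y687.JQ.AdS M := fun M h => ⟨M, 1, h, one_ne_zero, by ring⟩
  have hL' : ∀ L : ℤ, Fam49 L → V11291.E49.FS L := fun L h => ⟨L, 1, h, one_ne_zero, by ring⟩
  have htot : ∀ X : ℕ, count (fun _ => True) X =
      ((Finset.Icc 1 X).filter V11291.E49.BaseN).card := by
    intro X
    unfold count
    refine Nat.subtype_card _ fun D => ?_
    rw [Finset.mem_filter, Finset.mem_Icc, and_true]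
    exact Iff.rfl
  refine ⟨fun n d M L hB hM hL hG K _ _ ⟨x, hx, hK⟩ => ?_, fun n d M L hd hB hM hL => ?_,
    fun n d M L hB hM hL hG => ?_, fun d => ?_, Pool.Agent.Y948.CQ.t_C2.2.2.2⟩
  · obtain ⟨hind, h1, h2⟩ := (good_iff d M L).1 hG
    refine ⟨?_, conj_of (V11291.E49.field14 hind hB (hM' M hM) hM.1.ne_zero h1 K x hx hK),
      conj_of (V11291.E49.field49 hind hB (hL' L hL) hL.1.ne_zero h2 K x hx hK)⟩
    have := Y73.QMQ1.gal_of hx hK
    rw [← IsGalois.card_aut_eq_finrank]
    exact Y73.QMQ1.card_gal hind hx hK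
  · have h := V11291.E49.prop_two hd hB (hM' M hM) hM.1.ne_zero (hL' L hL) hL.1.ne_zero
    refine h.congr fun X => ?_
    rw [htot]
    refine congrArg₂ (fun a b : ℕ => (a : ℝ) / (b : ℝ)) (Eq.symm ?_) rfl
    refine Nat.subtype_card _ fun D => ?_
    rw [Finset.mem_filter, Finset.mem_Icc]
    refine and_congr_right fun _ => and_congr_right fun _ => ?_
    simp only [r0_iff]
    exact forall_and.symm
  · obtain ⟨hind, h1⟩ := (good_iff d M L).1 hG
    have h := V11291.E49.prop_ext2 hind hB (hM' M hM) hM.1.ne_zero (hL' L hL) hL.1.ne_zero h1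
    refine h.congr fun X => ?_
    rw [htot]
    refine congrArg₂ (fun a b : ℕ => (a : ℝ) / (b : ℝ)) (Eq.symm ?_) rfl
    refine Nat.subtype_card _ fun D => ?_
    rw [Finset.mem_filter, Finset.mem_Icc]
    refine and_congr_right fun _ => and_congr_right fun _ => ?_
    exact (good_iff _ M L).symm
  · rw [good_iff]
    refine ⟨fun T hT => ?_, fun T => ?_, fun T => ?_⟩
    · obtain ⟨i, -⟩ := hT
      exact i.elim0
    · have e : T = ∅ := Finset.eq_empty_of_isEmpty T
      rw [e, Finset.prod_empty, mul_one]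
      exact V11291.E49.R14_one
    · have e : T = ∅ := Finset.eq_empty_of_isEmpty T
      rw [e, Finset.prod_empty, mul_one]
      exact V11291.E49.R49_one

end Pool.Agent.Results.MP_32c55d_nt.TwoCurvesMultiquadratic
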